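import Mathlib

/-!
Abstract intersection theory for the kernel theorem (MP_f2954d_ag, block B1): definitions and
basic lemmas.
-/

namespace SCB

open Filter Topology

/-- positive real combinations of elements of `G` (nonempty sums) -/
def Cone {N : Type} [AddCommGroup N] [Module ℝ N] (G : Set N) : Set N :=
  {x | ∃ (r : ℕ) (g : Fin (r + 1) → N) (c : Fin (r + 1) → ℝ), (∀ i, g i ∈ G ∧ 0 < c i) ∧
    x = ∑ i, c i • g i}

/-- a form has at most one positive direction -/
def Lor {N : Type} (q : N → N → ℝ) : Prop :=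
  ∀ x y, 0 < q x x → q x x * q y y ≤ q x y ^ 2

/-- type P components `δ` of a big class of the threefold `h`:
nonnegative on `G`, Lorentzian, and movable with one of the factors of `h` -/
def TypeP {N : Type} [AddCommGroup N] [Module ℝ N] (I : Multiset N → ℝ)
    (G : Set N) (h : Multiset N) (δ : N) : Prop :=
  (∀ x ∈ G, ∀ y ∈ G, 0 ≤ I (δ ::ₘ x ::ₘ y ::ₘ h)) ∧
  Lor (fun x y => I (δ ::ₘ x ::ₘ y ::ₘ h)) ∧
  ∃ (j : N) (h' : Multiset N), h = j ::ₘ h' ∧ ∀ g ∈ G, ∀ b ∈ G, ∀ a ∈ G,
    3 * I (g ::ₘ g ::ₘ b ::ₘ a ::ₘ h') < I (g ::ₘ g ::ₘ g ::ₘ a ::ₘ h') →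
    0 ≤ I (δ ::ₘ (g - b) ::ₘ a ::ₘ h)

/-- The abstract intersection theory of a variety of dimension `n`: `N` the space of numerical
classes of divisors, `I` the intersection numbers (used on multisets with `n` elements only), `G` the
positive rational multiples of the classes of ample divisors, `P` the prime divisors, `cl` their
classes. -/
structure Geo (N P : Type) [AddCommGroup N] [Module ℝ N] (n : ℕ) where
  I : Multiset N → ℝ
  add : ∀ (a b : N) (s : Multiset N), s.card + 1 = n → I ((a + b) ::ₘ s) = I (a ::ₘ s) + I (b ::ₘ s)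
  smul : ∀ (c : ℝ) (a : N) (s : Multiset N), s.card + 1 = n → I ((c • a) ::ₘ s) = c * I (a ::ₘ s)
  nondeg : ∀ x : N, (∀ s : Multiset N, s.card + 1 = n → I (x ::ₘ s) = 0) → x = 0
  G : Set N
  G_nonempty : G.Nonempty
  G_add : ∀ a ∈ G, ∀ b ∈ G, a + b ∈ G
  G_smul : ∀ a ∈ G, ∀ q : ℚ, 0 < q → (q : ℝ) • a ∈ G
  G_open : ∀ g ∈ G, ∀ x : N, ∃ t : ℝ, 0 < t ∧ g + t • x ∈ Cone G
  cl : P → N
  pos : ∀ s : Multiset N, s.card = n → (∀ a ∈ s, a ∈ G) → 0 < I s
  posD : ∀ (D : P) (s : Multiset N), s.card + 1 = n → (∀ a ∈ s, a ∈ G) → 0 < I (cl D ::ₘ s)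
  nonnegDD : ∀ (D D' : P), D ≠ D' → ∀ s : Multiset N, s.card + 2 = n → (∀ a ∈ s, a ∈ G) →
    0 ≤ I (cl D ::ₘ cl D' ::ₘ s)
  lor : ∀ s : Multiset N, s.card + 2 = n → (∀ a ∈ s, a ∈ G) → Lor (fun x y => I (x ::ₘ y ::ₘ s))
  lorD : ∀ (D : P) (s : Multiset N), s.card + 3 = n → (∀ a ∈ s, a ∈ G) →
    Lor (fun x y => I (cl D ::ₘ x ::ₘ y ::ₘ s))
  siu : ∀ h : Multiset N, h.card + 3 = n → (∀ a ∈ h, a ∈ G) → ∀ g ∈ G, ∀ b ∈ G,
    3 * I (g ::ₘ g ::ₘ b ::ₘ h) < I (g ::ₘ g ::ₘ g ::ₘ h) →
    ∃ (r : ℕ) (c : Fin r → ℝ) (δ : Fin r → N), (∀ i, 0 ≤ c i) ∧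
      (∀ x y, I ((g - b) ::ₘ x ::ₘ y ::ₘ h) = ∑ i, c i * I (δ i ::ₘ x ::ₘ y ::ₘ h)) ∧
      ∀ i, (∃ D, δ i = cl D) ∨ TypeP I G h (δ i)

/-- symmetric bilinear functions -/
structure SymBil {N : Type} [AddCommGroup N] [Module ℝ N] (q : N → N → ℝ) : Prop where
  symm : ∀ x y, q x y = q y x
  add : ∀ a b y, q (a + b) y = q a y + q b y
  smul : ∀ (c : ℝ) a y, q (c • a) y = c * q a y

namespace SymBil

variable {N : Type} [AddCommGroup N] [Module ℝ N] {q : N → N → ℝ} (h : SymBil q)

include h

lemma add' (x a b : N) : q x (a + b) = q x a + q x b := by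
  rw [h.symm, h.add, h.symm a, h.symm b]

lemma smul' (c : ℝ) (x a : N) : q x (c • a) = c * q x a := by
  rw [h.symm, h.smul, h.symm a]

lemma zero (y : N) : q 0 y = 0 := by
  have := h.smul 0 0 y; simpa using this

lemma zero' (y : N) : q y 0 = 0 := by rw [h.symm, h.zero]

lemma neg (a y : N) : q (-a) y = - q a y := by
  have := h.smul (-1) a y; simpa using this

lemma neg' (a y : N) : q a (-y) = - q a y := by rw [h.symm, h.neg, h.symm]

lemma sub (a b y : N) : q (a - b) y = q a y - q b y := by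
  rw [sub_eq_add_neg, h.add, h.neg, sub_eq_add_neg]

lemma sub' (x a b : N) : q x (a - b) = q x a - q x b := by
  rw [sub_eq_add_neg, h.add', h.neg', sub_eq_add_neg]

end SymBil

section Alg

variable {N P : Type} [AddCommGroup N] [Module ℝ N] {n : ℕ} (X : Geo N P n)

namespace Geo

lemma I_add (a b : N) {s : Multiset N} (h : s.card + 1 = n) :
    X.I ((a + b) ::ₘ s) = X.I (a ::ₘ s) + X.I (b ::ₘ s) := X.add a b s h

lemma I_smul (c : ℝ) (a : N) {s : Multiset N} (h : s.card + 1 = n) :
    X.I ((c • a) ::ₘ s) = c * X.I (a ::ₘ s) := X.smul c a s h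

lemma I_zero {s : Multiset N} (h : s.card + 1 = n) : X.I ((0 : N) ::ₘ s) = 0 := by
  have := X.I_smul 0 0 h; simpa using this

lemma I_neg (a : N) {s : Multiset N} (h : s.card + 1 = n) :
    X.I ((-a) ::ₘ s) = - X.I (a ::ₘ s) := by
  have := X.I_smul (-1) a h; simpa using this

lemma I_sub (a b : N) {s : Multiset N} (h : s.card + 1 = n) :
    X.I ((a - b) ::ₘ s) = X.I (a ::ₘ s) - X.I (b ::ₘ s) := by
  rw [sub_eq_add_neg, X.I_add _ _ h, X.I_neg _ h, sub_eq_add_neg]

lemma I_sum {κ : Type} (T : Finset κ) (f : κ → N) {s : Multiset N} (h : s.card + 1 = n) :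
    X.I ((∑ i ∈ T, f i) ::ₘ s) = ∑ i ∈ T, X.I (f i ::ₘ s) := by
  classical
  induction T using Finset.induction_on with
  | empty => simp [X.I_zero h]
  | insert a T ha ih => rw [Finset.sum_insert ha, Finset.sum_insert ha, X.I_add _ _ h, ih]

/-- the bilinear form given by `n - 2` classes -/
def q (s : Multiset N) (x y : N) : ℝ := X.I (x ::ₘ y ::ₘ s)

lemma symBil_q {s : Multiset N} (h : s.card + 2 = n) : SymBil (X.q s) where
  symm x y := by unfold q; rw [Multiset.cons_swap]
  add a b y := X.I_add _ _ (by simp; omega)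
  smul c a y := X.I_smul _ _ (by simp; omega)

/-- the form `I (d, x, y, h)` -/
lemma symBil_d (d : N) {h : Multiset N} (hh : h.card + 3 = n) :
    SymBil (fun x y => X.I (d ::ₘ x ::ₘ y ::ₘ h)) where
  symm x y := by
    show X.I _ = X.I _
    rw [Multiset.cons_swap x y]
  add a b y := by
    show X.I _ = X.I _ + X.I _
    rw [Multiset.cons_swap d, X.I_add _ _ (by simp; omega), Multiset.cons_swap a,
      Multiset.cons_swap b]
  smul c a y := by
    show X.I _ = c * X.I _
    rw [Multiset.cons_swap d, X.I_smul _ _ (by simp; omega), Multiset.cons_swap a]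

end Geo

end Alg

/-- intersection numbers of multisets given by a multilinear map -/
noncomputable def ofMulti {N : Type} [AddCommGroup N] [Module ℝ N] {n : ℕ}
    (μ : MultilinearMap ℝ (fun _ : Fin n => N) ℝ) (s : Multiset N) : ℝ :=
  if h : s.card = n then μ (fun i => s.toList.get (i.cast (by simp [h]))) else 0

/-! ### Families of classes -/

section Fam

variable {N ι : Type} [Fintype ι]

/-- the multiset of all members of a family -/
def ms (L : ι → N) : Multiset N := Finset.univ.val.map L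

/-- the multiset of the members of a family with index in `S` -/
def mss (S : Finset ι) (L : ι → N) : Multiset N := S.val.map L

lemma card_ms (L : ι → N) : (ms L).card = Fintype.card ι := by simp [ms]

omit [Fintype ι] in
lemma card_mss (S : Finset ι) (L : ι → N) : (mss S L).card = S.card := by simp [mss]

lemma mem_ms (L : ι → N) (a : N) : a ∈ ms L ↔ ∃ i, L i = a := by simp [ms]

omit [Fintype ι] in
lemma mem_mss (S : Finset ι) (L : ι → N) (a : N) : a ∈ mss S L ↔ ∃ i ∈ S, L i = a := by
  simp [mss]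

lemma ms_eq_mss (L : ι → N) : ms L = mss Finset.univ L := rfl

omit [Fintype ι] in
lemma mss_empty (L : ι → N) : mss ∅ L = 0 := by simp [mss]

variable [DecidableEq ι]

omit [Fintype ι] in
lemma mss_insert (S : Finset ι) (L : ι → N) {i : ι} (hi : i ∉ S) :
    mss (insert i S) L = L i ::ₘ mss S L := by
  simp [mss, Finset.insert_val_of_notMem hi]

omit [Fintype ι] in
lemma mss_erase (S : Finset ι) (L : ι → N) {i : ι} (hi : i ∈ S) :
    mss S L = L i ::ₘ mss (S.erase i) L := by
  rw [← mss_insert _ _ (Finset.notMem_erase i S), Finset.insert_erase hi]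

lemma ms_erase (L : ι → N) (i : ι) : ms L = L i ::ₘ mss (Finset.univ.erase i) L :=
  mss_erase _ _ (Finset.mem_univ i)

omit [Fintype ι] [DecidableEq ι] in
lemma mss_congr {S : Finset ι} {L L' : ι → N} (h : ∀ i ∈ S, L i = L' i) : mss S L = mss S L' :=
  Multiset.map_congr rfl (by simpa using h)

lemma ms_compl (S : Finset ι) (L : ι → N) : ms L = mss S L + mss Sᶜ L := by
  rw [ms_eq_mss, mss, mss, mss, ← Multiset.map_add]
  congr 1
  have h : S.disjUnion Sᶜ disjoint_compl_right = Finset.univ := by simp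
  rw [← h]; rfl

/-- replace the members with index in `S` by `A` -/
def rep (A : N) (S : Finset ι) (L : ι → N) : ι → N := fun i => if i ∈ S then A else L i

lemma ms_rep (A : N) (S : Finset ι) (L : ι → N) :
    ms (rep A S L) = Multiset.replicate S.card A + mss Sᶜ L := by
  rw [ms_compl S (rep A S L)]
  congr 1
  · rw [mss_congr (L' := fun _ => A) (by intro i hi; simp [rep, hi])]
    simp [mss]
  · exact mss_congr (by intro i hi; simp at hi; simp [rep, hi])

omit [Fintype ι] in
lemma rep_rep (A : N) (S T : Finset ι) (L : ι → N) :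
    rep A S (rep A T L) = rep A (S ∪ T) L := by
  funext i
  by_cases h1 : i ∈ S <;> by_cases h2 : i ∈ T <;> simp [rep, h1, h2]

omit [Fintype ι] in
lemma rep_empty (A : N) (L : ι → N) : rep A ∅ L = L := by funext i; simp [rep]

end Fam

/-! ### Numerical conditions -/

section Cond

variable {N P : Type} [AddCommGroup N] [Module ℝ N] {n : ℕ} (X : Geo N P n)

namespace Geo

/-- the product of the classes in `Z` is not numerically zero -/
def Nz (A : N) (Z : Multiset N) : Prop :=
  ∃ r : ℕ, Z.card + r = n ∧ 0 < X.I (Z + Multiset.replicate r A)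

/-- `L x = 0` -/
def Ker {ι : Type} [Fintype ι] (L : ι → N) (x : N) : Prop := ∀ y, X.I (x ::ₘ y ::ₘ ms L) = 0

/-- the span of the classes of the prime divisors in the kernel -/
def V {ι : Type} [Fintype ι] (L : ι → N) : Submodule ℝ N :=
  Submodule.span ℝ (X.cl '' {D | X.Ker L (X.cl D)})

/-- supercriticality with respect to an ample class `A` -/
def Sup {ι : Type} (A : N) (L : ι → N) : Prop :=
  ∀ J : Finset ι, J.Nonempty → X.Nz A (Multiset.replicate (J.card + 2) (∑ i ∈ J, L i))

/-- nef classes, defined algebraically -/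
def NefA (x : N) : Prop := ∀ g ∈ X.G, ∀ ε : ℝ, 0 < ε → x + ε • g ∈ Cone X.G

/-- the kernel theorem for a family -/
def Thm {ι : Type} [Fintype ι] (L : ι → N) : Prop := ∀ x, X.Ker L x → x ∈ X.V L

end Geo

end Cond

/-! ### Nef and ample classes of a finite dimensional normed space -/

section Top

variable {N P : Type} [NormedAddCommGroup N] [NormedSpace ℝ N] {n : ℕ} (X : Geo N P n)

namespace Geo

/-- nef classes -/
def Nef : Set N := closure X.G

/-- ample classes -/
def Amp : Set N := interior X.Nef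

/-- classes with nonnegative intersection with nef classes -/
def Pos (x : N) : Prop := ∀ s : Multiset N, s.card + 1 = n → (∀ a ∈ s, a ∈ X.Nef) → 0 ≤ X.I (x ::ₘ s)

/-- the multiset `W` has nonnegative intersection with nef classes -/
def PosM (W : Multiset N) : Prop :=
  ∀ s : Multiset N, W.card + s.card = n → (∀ a ∈ s, a ∈ X.Nef) → 0 ≤ X.I (W + s)

/-- supercritical families of nef classes -/
def NS {ι : Type} (A : N) (L : ι → N) : Prop := (∀ i, L i ∈ X.Nef) ∧ X.Sup A L

open Classical in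
/-- the number of non-ample members -/
noncomputable def na {ι : Type} [Fintype ι] (L : ι → N) : ℕ :=
  (Finset.univ.filter fun i => L i ∉ X.Amp).card

/-- induction hypothesis -/
def IH {ι : Type} [Fintype ι] (A : N) (L : ι → N) : Prop :=
  ∀ L' : ι → N, X.NS A L' → X.na L' < X.na L → X.Thm L'

end Geo

/-- convergence of multisets -/
inductive MT {α : Type} (l : Filter α) : (α → Multiset N) → Multiset N → Prop
  | nil : MT l (fun _ => 0) 0
  | cons {x : α → N} {x₀ : N} {s : α → Multiset N} {s₀ : Multiset N} :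
      Tendsto x l (𝓝 x₀) → MT l s s₀ → MT l (fun a => x a ::ₘ s a) (x₀ ::ₘ s₀)

namespace MT

omit [NormedSpace ℝ N] in
lemma const {α : Type} {l : Filter α} (s : Multiset N) : MT l (fun _ => s) s := by
  induction s using Multiset.induction_on with
  | empty => exact MT.nil
  | cons a s ih => exact MT.cons tendsto_const_nhds ih

omit [NormedSpace ℝ N] in
lemma add {α : Type} {l : Filter α} {s t : α → Multiset N} {s₀ t₀ : Multiset N} (hs : MT l s s₀)
    (ht : MT l t t₀) : MT l (fun a => s a + t a) (s₀ + t₀) := by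
  induction hs with
  | nil => simpa using ht
  | cons hx _ ih =>
    simp only [Multiset.cons_add]
    exact MT.cons hx ih

omit [NormedSpace ℝ N] in
lemma comp {α β : Type} {l : Filter α} {l' : Filter β} {s : α → Multiset N} {s₀ : Multiset N}
    (hs : MT l s s₀) {φ : β → α} (hφ : Tendsto φ l' l) : MT l' (fun b => s (φ b)) s₀ := by
  induction hs with
  | nil => exact MT.nil
  | cons hx _ ih => exact MT.cons (hx.comp hφ) ih

omit [NormedSpace ℝ N] in
lemma card_eq {α : Type} {l : Filter α} {s : α → Multiset N} {s₀ : Multiset N} (hs : MT l s s₀)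
    (a : α) : (s a).card = s₀.card := by
  induction hs with
  | nil => rfl
  | cons hx _ ih => simp [ih]

omit [NormedSpace ℝ N] in
lemma mss {α ι : Type} {l : Filter α} (S : Finset ι) {f : α → ι → N} {f₀ : ι → N}
    (h : ∀ i ∈ S, Tendsto (fun a => f a i) l (𝓝 (f₀ i))) :
    MT l (fun a => SCB.mss S (f a)) (SCB.mss S f₀) := by
  classical
  induction S using Finset.induction_on with
  | empty => simpa [mss_empty] using MT.nil
  | insert i S hi ih =>
    simp only [mss_insert _ _ hi]
    exact MT.cons (h i (by simp)) (ih fun j hj => h j (by simp [hj]))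

omit [NormedSpace ℝ N] in
lemma ms {α ι : Type} [Fintype ι] {l : Filter α} {f : α → ι → N} {f₀ : ι → N}
    (h : ∀ i, Tendsto (fun a => f a i) l (𝓝 (f₀ i))) :
    MT l (fun a => SCB.ms (f a)) (SCB.ms f₀) := MT.mss _ fun i _ => h i

end MT

end Top

end SCB
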