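import Pool.Agent.H16.SC.Targets

/-!
Modules LR, LL of block B1 of MP_f2954d_ag: calculus of Lorentzian forms.
-/

namespace Pool.Agent.H16.SC

open SCB Filter Topology

lemma lr1 {N : Type} [AddCommGroup N] [Module ℝ N] {q : N → N → ℝ} (hl : Lor q) (x y : N)
    (hx : 0 < q x x) (hxy : q x y = 0) : q y y ≤ 0 := by
  have h := hl x y hx
  rw [hxy] at h
  by_contra hc
  push Not at hc
  have := mul_pos hx hc
  nlinarith

lemma lr2 {N : Type} [AddCommGroup N] [Module ℝ N] {q : N → N → ℝ} (hq : SymBil q) (hl : Lor q)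
    (x y : N) (hx : 0 < q x x) (hxy : q x y = 0) (hyy : q y y = 0) (z : N) : q y z = 0 := by
  set z' := z - (q x z / q x x) • x with hz'
  have h1 : q x z' = 0 := by
    rw [hz', hq.sub', hq.smul']; field_simp; ring
  have h2 : ∀ t : ℝ, 2 * t * q y z' + t ^ 2 * q z' z' ≤ 0 := by
    intro t
    have h3 := lr1 hl x (y + t • z') hx (by rw [hq.add', hxy, hq.smul', h1]; ring)
    rw [hq.add, hq.add', hq.add', hq.smul, hq.smul, hq.smul', hq.smul', hyy, hq.symm z' y] at h3
    nlinarith
  have h3 : q y z' = 0 := by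
    by_contra hb
    set b := q y z' with hbdef
    set c := q z' z' with hcdef
    have hc1 : (0 : ℝ) < |c| + 1 := by positivity
    have h4 := h2 (b / (|c| + 1))
    have h5 : 2 * (b / (|c| + 1)) * b + (b / (|c| + 1)) ^ 2 * c
        = b ^ 2 / (|c| + 1) ^ 2 * (2 * (|c| + 1) + c) := by
      field_simp
    rw [h5] at h4
    have h6 : 0 < b ^ 2 / (|c| + 1) ^ 2 := by positivity
    have h7 : 0 < 2 * (|c| + 1) + c := by
      have := neg_abs_le c
      have := abs_nonneg c
      linarith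
    have := mul_pos h6 h7
    linarith
  have h8 : z = z' + (q x z / q x x) • x := by rw [hz']; abel
  rw [h8, hq.add', hq.smul', h3, hq.symm y x, hxy]
  ring

lemma lr3 {N : Type} [AddCommGroup N] [Module ℝ N] {q : N → N → ℝ} (hq : SymBil q) (hl : Lor q)
    (g a x : N) (hg : 0 < q g g) (hga : 0 < q g a) (haa : 0 ≤ q a a) :
    q x x ≤ 2 * (q g x / q g a) * q a x := by
  set t := q g x / q g a with ht
  have h1 : q g (x - t • a) = 0 := by
    rw [hq.sub', hq.smul', ht]; field_simp; ring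
  have h2 := lr1 hl g (x - t • a) hg h1
  rw [hq.sub, hq.sub', hq.sub', hq.smul, hq.smul, hq.smul', hq.smul', hq.symm x a] at h2
  nlinarith [mul_nonneg (sq_nonneg t) haa]

theorem klr : T_LR := by
  intro N _ _ q hq hl
  exact ⟨fun x y h1 h2 => lr1 hl x y h1 h2, fun x y h1 h2 h3 z => lr2 hq hl x y h1 h2 h3 z,
    fun g a x h1 h2 h3 => lr3 hq hl g a x h1 h2 h3⟩

theorem kll : T_LL := by
  intro N q q₀ hl ht x y hx
  have h1 : ∀ᶠ k in atTop, 0 < q k x x := (ht x x).eventually_const_lt hx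
  have h2 : ∀ᶠ k in atTop, q k x x * q k y y ≤ q k x y ^ 2 := h1.mono fun k hk => hl k x y hk
  exact le_of_tendsto_of_tendsto ((ht x x).mul (ht y y)) ((ht x y).pow 2) h2

end Pool.Agent.H16.SC
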