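import Pool.Agent.H16.SC.Targets
import Pool.Agent.H16.SC.KLR

/-!
Module FI of block B1 of MP_f2954d_ag: the main step.
-/

namespace Pool.Agent.H16.SC

open SCB Filter Topology

lemma perm3 {N : Type} (a b y : N) (s : Multiset N) : a ::ₘ b ::ₘ y ::ₘ s = y ::ₘ a ::ₘ b ::ₘ s := by
  rw [Multiset.cons_swap b y, Multiset.cons_swap a y]

/-- `V` of the family with `L i₀` replaced by the ample class -/
lemma V_rep_le (hCN : T_CN) (hPS : T_PS) (hPM : T_PM) (hDM : T_DM) {N P ι : Type}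
    [NormedAddCommGroup N] [NormedSpace ℝ N] [FiniteDimensional ℝ N] [Fintype ι] [DecidableEq ι]
    {n : ℕ} (X : Geo N P n) {A : N} (hA : A ∈ X.G) (hcard : Fintype.card ι + 2 = n) (L : ι → N)
    (hL : ∀ i, L i ∈ X.Nef) (i₀ : ι) : X.V (rep A {i₀} L) ≤ X.V L := by
  have hAamp : A ∈ X.Amp := (hCN N P n X).2.2.1 A hA
  have hM : ∀ b ∈ mss (Finset.univ.erase i₀) L, b ∈ X.Nef := by
    intro b hb
    obtain ⟨i, -, rfl⟩ := (mem_mss _ _ _).1 hb
    exact hL i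
  have hc : (mss (Finset.univ.erase i₀) L).card + 1 = Fintype.card ι := by
    rw [card_mss, Finset.card_erase_of_mem (Finset.mem_univ _), Finset.card_univ]
    have : 0 < Fintype.card ι := Fintype.card_pos_iff.2 ⟨i₀⟩
    omega
  have hF : ms (rep A {i₀} L) = A ::ₘ mss (Finset.univ.erase i₀) L := by
    rw [ms_rep, Finset.compl_singleton]; simp
  refine Submodule.span_mono ?_
  rintro _ ⟨D, hD, rfl⟩
  refine ⟨D, ?_, rfl⟩
  have hD' : X.Ker (rep A {i₀} L) (X.cl D) := hD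
  have h1 : X.I ((X.cl D ::ₘ mss (Finset.univ.erase i₀) L) + ({A, A} : Multiset N)) = 0 := by
    have h := hD' A
    rw [hF] at h
    convert h using 2
    rw [Multiset.insert_eq_cons, Multiset.add_cons, Multiset.cons_add, add_comm,
      Multiset.singleton_add]
    rw [Multiset.cons_swap (X.cl D) A, Multiset.cons_swap (X.cl D) A]
    exact congrArg (A ::ₘ ·) (Multiset.cons_swap A (X.cl D) _)
  have h2 := hDM N P n X (X.cl D ::ₘ mss (Finset.univ.erase i₀) L) {A, A}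
    ((hPM N P n X).2.2.1 _ _ ((hPS N P n X).2.1 D) hM) (by
      intro a ha
      simp at ha
      rw [ha]; exact hAamp) (by simp; omega) h1
  intro y
  have h3 := h2 {y, L i₀} (by simp)
  rw [ms_erase L i₀]
  convert h3 using 2
  rw [Multiset.insert_eq_cons, Multiset.add_cons, Multiset.cons_add, add_comm _ {L i₀},
    Multiset.singleton_add, Multiset.cons_swap y (X.cl D)]

theorem kfi (hCN : T_CN) (hCT : T_CT) (hPS : T_PS) (hPM : T_PM) (hDM : T_DM) (hP : T_P)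
    (hRP : T_RP) (hCL : T_CL) (hX0 : T_X0) (hS1 : T_S1) (hS6 : T_S6) (hET : T_ET) (hSV : T_SV) :
    T_FI := by
  intro N P ι _ _ _ _ n X A hA hcard L hL hIH hex
  classical
  obtain ⟨i₀, hi₀⟩ := hex
  by_contra hne
  obtain ⟨e, a, η, η₀, he, he0, ha, hG, hη, hn, hker, hV⟩ := hET N P ι n X A hA hcard L hL hne
  set Lk : ℕ → ι → N := fun k i => L i + e k • a k i with hLkdef
  have hLk : ∀ i, Tendsto (fun k => Lk k i) atTop (𝓝 (L i)) := by
    intro i
    have := (tendsto_const_nhds (x := L i)).add (he0.smul (ha i))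
    simpa [hLkdef] using this
  set M : Multiset N := mss (Finset.univ.erase i₀) L with hMdef
  set Mk : ℕ → Multiset N := fun k => mss (Finset.univ.erase i₀) (Lk k) with hMkdef
  have hms : ∀ k, ms (Lk k) = Lk k i₀ ::ₘ Mk k := fun k => ms_erase _ _
  have hmsL : ms L = L i₀ ::ₘ M := ms_erase _ _
  have hMT : MT atTop Mk M := MT.mss _ fun i _ => hLk i
  have hAamp : A ∈ X.Amp := (hCN N P n X).2.2.1 A hA
  have hcι : 0 < Fintype.card ι := Fintype.card_pos_iff.2 ⟨i₀⟩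
  have hcM : M.card + 3 = n := by
    rw [hMdef, card_mss, Finset.card_erase_of_mem (Finset.mem_univ _), Finset.card_univ]
    omega
  have hcMk : ∀ k, (Mk k).card + 3 = n := by
    intro k
    rw [hMkdef]
    simp only
    rw [card_mss, Finset.card_erase_of_mem (Finset.mem_univ _), Finset.card_univ]
    omega
  have hMkG : ∀ k, ∀ b ∈ Mk k, b ∈ X.G := by
    intro k b hb
    obtain ⟨i, -, rfl⟩ := (mem_mss _ _ _).1 hb
    exact hG k i
  have hgG : ∀ k, Lk k i₀ ∈ X.G := fun k => hG k i₀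
  have hMnef : ∀ b ∈ M, b ∈ X.Nef := by
    intro b hb
    obtain ⟨i, -, rfl⟩ := (mem_mss _ _ _).1 hb
    exact hL.1 i
  -- the classes `x`
  choose x hx using fun k => hSV N P n X (A ::ₘ Mk k) (Lk k i₀ ::ₘ Mk k) (η k)
    (by rw [Multiset.card_cons]; have := hcMk k; omega) (by
      intro b hb
      rcases Multiset.mem_cons.1 hb with rfl | hb
      · exact hAamp
      · exact (hCN N P n X).2.2.1 b (hMkG k b hb))
    (by rw [Multiset.card_cons]; have := hcMk k; omega)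
  have hx0 : Tendsto x atTop (𝓝 0) := by
    refine hX0 N P ι n X A hA hcard L hL hIH i₀ e a η η₀ x hi₀ he he0 ha hη hker hV ?_
    intro k y
    have h := hx k y
    rw [← hms k] at h
    exact h
  -- `η₀` is not in `V`
  have hη₀V : η₀ ∉ X.V L := by
    intro hmem
    have h0 := hCL N P ι n X A hA hcard L hL hIH e a η η₀ he he0 ha hη
      (fun k => hV k η₀ hmem) hmem
    rw [h0, norm_zero] at hn
    exact zero_ne_one hn
  -- the form of the family with `L i₀` replaced by `A`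
  obtain ⟨hNSF, hposF, hnaF⟩ := hRP N P ι n X A hA hcard L hL {i₀}
  have hmsF : ms (rep A {i₀} L) = A ::ₘ M := by
    rw [ms_rep, Finset.compl_singleton]; simp [hMdef]
  have hcAM : (A ::ₘ M).card + 2 = n := by rw [Multiset.card_cons]; omega
  have hq := X.symBil_q hcAM
  have hlor : Lor (X.q (A ::ₘ M)) := (hPS N P n X).2.2.2.1 _ hcAM (by
    intro b hb
    rcases Multiset.mem_cons.1 hb with rfl | hb
    · exact interior_subset hAamp
    · exact hMnef b hb)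
  have h1 : 0 < X.q (A ::ₘ M) (L i₀) (L i₀) := by
    have := hposF i₀
    rw [hmsF] at this
    exact this
  have h2 : X.q (A ::ₘ M) (L i₀) η₀ = 0 := by
    have := hker A
    rw [hmsL] at this
    unfold Geo.q
    rw [← this]
    congr 1
    rw [Multiset.cons_swap (L i₀) η₀, Multiset.cons_swap (L i₀) A]
  have h3 : X.q (A ::ₘ M) η₀ η₀ < 0 := by
    rcases (lr1 hlor _ _ h1 h2).lt_or_eq with h | h
    · exact h
    · exfalso
      have h4 := lr2 hq hlor _ _ h1 h2 h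
      have h5 : η₀ ∈ X.V (rep A {i₀} L) := hIH _ hNSF (hnaF ⟨i₀, by simp, hi₀⟩) η₀ (by
        intro y
        rw [hmsF]
        exact h4 y)
      exact hη₀V (V_rep_le hCN hPS hPM hDM X hA hcard L hL.1 i₀ h5)
  -- choice of `d`
  have hα : 0 < X.I (L i₀ ::ₘ L i₀ ::ₘ L i₀ ::ₘ M) := by
    have := hP N P ι n X A hA hcard L hL i₀
    rwa [hmsL] at this
  have hcMi : ∀ i ∈ Finset.univ.erase i₀,
      (mss ((Finset.univ.erase i₀).erase i) L).card + 4 = n := by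
    intro i hi
    rw [card_mss, Finset.card_erase_of_mem hi, Finset.card_erase_of_mem (Finset.mem_univ _),
      Finset.card_univ]
    have : 0 < (Finset.univ.erase i₀).card := Finset.card_pos.2 ⟨i, hi⟩
    rw [Finset.card_erase_of_mem (Finset.mem_univ _), Finset.card_univ] at this
    omega
  have hαi : ∀ i ∈ Finset.univ.erase i₀, 0 < X.I (L i₀ ::ₘ L i₀ ::ₘ L i₀ ::ₘ A ::ₘ
      mss ((Finset.univ.erase i₀).erase i) L) := by
    intro i hi
    have h := (hRP N P ι n X A hA hcard L hL {i}).2.1 i₀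
    have h6 : ms (rep A {i} L) = L i₀ ::ₘ A ::ₘ mss ((Finset.univ.erase i₀).erase i) L := by
      rw [ms_rep, Finset.compl_singleton]
      have hne' : i₀ ∈ Finset.univ.erase i := by
        simp only [Finset.mem_erase, Finset.mem_univ, and_true] at hi ⊢
        exact fun h => hi h.symm
      rw [mss_erase _ _ hne', Finset.erase_right_comm]
      simp only [Finset.card_singleton, Multiset.replicate_one, Multiset.singleton_add]
      rw [Multiset.cons_swap]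
    rwa [h6] at h
  have hlin : ∀ (d : ℝ) (u v : N) (s : Multiset N), s.card + 3 = n →
      X.I (u ::ₘ v ::ₘ (d • A) ::ₘ s) = d * X.I (u ::ₘ v ::ₘ A ::ₘ s) := by
    intro d u v s hs
    rw [perm3, X.I_smul _ _ (by simp only [Multiset.card_cons]; omega), perm3 u v A]
  have hz : Tendsto (fun k : ℕ => 1 / ((k : ℝ) + 1)) atTop (𝓝 0) :=
    tendsto_one_div_add_atTop_nhds_zero_nat
  have hd : ∃ d : ℚ, 0 < d ∧
      3 * X.I (L i₀ ::ₘ L i₀ ::ₘ ((d : ℝ) • A) ::ₘ M) < X.I (L i₀ ::ₘ L i₀ ::ₘ L i₀ ::ₘ M) ∧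
      ∀ i ∈ Finset.univ.erase i₀, 3 * X.I (L i₀ ::ₘ L i₀ ::ₘ ((d : ℝ) • A) ::ₘ A ::ₘ
        mss ((Finset.univ.erase i₀).erase i) L) < X.I (L i₀ ::ₘ L i₀ ::ₘ L i₀ ::ₘ A ::ₘ
        mss ((Finset.univ.erase i₀).erase i) L) := by
    have e1 : ∀ᶠ k : ℕ in atTop, 3 * ((1 / ((k : ℝ) + 1)) * X.I (L i₀ ::ₘ L i₀ ::ₘ A ::ₘ M)) <
        X.I (L i₀ ::ₘ L i₀ ::ₘ L i₀ ::ₘ M) := by
      have : Tendsto (fun k : ℕ => 3 * ((1 / ((k : ℝ) + 1)) * X.I (L i₀ ::ₘ L i₀ ::ₘ A ::ₘ M)))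
          atTop (𝓝 (3 * (0 * X.I (L i₀ ::ₘ L i₀ ::ₘ A ::ₘ M)))) :=
        tendsto_const_nhds.mul (hz.mul tendsto_const_nhds)
      rw [zero_mul, mul_zero] at this
      exact this.eventually_lt_const hα
    have e2 : ∀ᶠ k : ℕ in atTop, ∀ i ∈ Finset.univ.erase i₀,
        3 * ((1 / ((k : ℝ) + 1)) * X.I (L i₀ ::ₘ L i₀ ::ₘ A ::ₘ A ::ₘ
        mss ((Finset.univ.erase i₀).erase i) L)) < X.I (L i₀ ::ₘ L i₀ ::ₘ L i₀ ::ₘ A ::ₘ
        mss ((Finset.univ.erase i₀).erase i) L) := by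
      rw [Filter.eventually_all_finset]
      intro i hi
      have : Tendsto (fun k : ℕ => 3 * ((1 / ((k : ℝ) + 1)) * X.I (L i₀ ::ₘ L i₀ ::ₘ A ::ₘ A ::ₘ
          mss ((Finset.univ.erase i₀).erase i) L))) atTop
          (𝓝 (3 * (0 * X.I (L i₀ ::ₘ L i₀ ::ₘ A ::ₘ A ::ₘ
          mss ((Finset.univ.erase i₀).erase i) L)))) :=
        tendsto_const_nhds.mul (hz.mul tendsto_const_nhds)
      rw [zero_mul, mul_zero] at this
      exact this.eventually_lt_const (hαi i hi)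
    obtain ⟨k, hk1, hk2⟩ := (e1.and e2).exists
    refine ⟨1 / ((k : ℚ) + 1), by positivity, ?_, ?_⟩
    · rw [hlin _ _ _ _ hcM]
      push_cast
      exact hk1
    · intro i hi
      rw [hlin _ _ _ _ (by rw [Multiset.card_cons]; have := hcMi i hi; omega)]
      push_cast
      exact hk2 i hi
  obtain ⟨d, hd0, hd1, hd2⟩ := hd
  have hdR : (0 : ℝ) < d := by exact_mod_cast hd0
  -- the constant of domination
  obtain ⟨C, hC0, hC⟩ := (hCN N P n X).2.2.2.1 A hAamp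
  -- limits
  have hg := hLk i₀
  have hcA : Tendsto (fun _ : ℕ => A) atTop (𝓝 A) := tendsto_const_nhds
  have hcdA : Tendsto (fun _ : ℕ => (d : ℝ) • A) atTop (𝓝 ((d : ℝ) • A)) := tendsto_const_nhds
  have l1 : Tendsto (fun k => 3 * X.I (Lk k i₀ ::ₘ Lk k i₀ ::ₘ ((d : ℝ) • A) ::ₘ Mk k)) atTop
      (𝓝 (3 * X.I (L i₀ ::ₘ L i₀ ::ₘ ((d : ℝ) • A) ::ₘ M))) :=
    tendsto_const_nhds.mul (hCT N P n X ℕ atTop _ _
      (MT.cons hg (MT.cons hg (MT.cons hcdA hMT))) (by simp only [Multiset.card_cons]; omega))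
  have l2 : Tendsto (fun k => X.I (Lk k i₀ ::ₘ Lk k i₀ ::ₘ Lk k i₀ ::ₘ Mk k)) atTop
      (𝓝 (X.I (L i₀ ::ₘ L i₀ ::ₘ L i₀ ::ₘ M))) :=
    hCT N P n X ℕ atTop _ _
      (MT.cons hg (MT.cons hg (MT.cons hg hMT))) (by simp only [Multiset.card_cons]; omega)
  have hMiT : ∀ i, MT atTop (fun k => mss ((Finset.univ.erase i₀).erase i) (Lk k))
      (mss ((Finset.univ.erase i₀).erase i) L) := fun i => MT.mss _ fun i _ => hLk i
  have l3 : ∀ᶠ k in atTop, ∀ i ∈ Finset.univ.erase i₀,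
      3 * X.I (Lk k i₀ ::ₘ Lk k i₀ ::ₘ ((d : ℝ) • A) ::ₘ A ::ₘ
        mss ((Finset.univ.erase i₀).erase i) (Lk k)) <
      X.I (Lk k i₀ ::ₘ Lk k i₀ ::ₘ Lk k i₀ ::ₘ A ::ₘ
        mss ((Finset.univ.erase i₀).erase i) (Lk k)) := by
    rw [Filter.eventually_all_finset]
    intro i hi
    have hc4 := hcMi i hi
    have t1 : Tendsto (fun k => 3 * X.I (Lk k i₀ ::ₘ Lk k i₀ ::ₘ ((d : ℝ) • A) ::ₘ A ::ₘ
        mss ((Finset.univ.erase i₀).erase i) (Lk k))) atTop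
        (𝓝 (3 * X.I (L i₀ ::ₘ L i₀ ::ₘ ((d : ℝ) • A) ::ₘ A ::ₘ
        mss ((Finset.univ.erase i₀).erase i) L))) :=
      tendsto_const_nhds.mul (hCT N P n X ℕ atTop _ _
        (MT.cons hg (MT.cons hg (MT.cons hcdA (MT.cons hcA (hMiT i)))))
        (by simp only [Multiset.card_cons]; omega))
    have t2 : Tendsto (fun k => X.I (Lk k i₀ ::ₘ Lk k i₀ ::ₘ Lk k i₀ ::ₘ A ::ₘ
        mss ((Finset.univ.erase i₀).erase i) (Lk k))) atTop
        (𝓝 (X.I (L i₀ ::ₘ L i₀ ::ₘ L i₀ ::ₘ A ::ₘ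
        mss ((Finset.univ.erase i₀).erase i) L))) :=
      hCT N P n X ℕ atTop _ _
        (MT.cons hg (MT.cons hg (MT.cons hg (MT.cons hcA (hMiT i)))))
        (by simp only [Multiset.card_cons]; omega)
    exact t1.eventually_lt t2 (hd2 i hi)
  have l4 : Tendsto (fun k => X.I ((Lk k i₀ - (d : ℝ) • A) ::ₘ η k ::ₘ η k ::ₘ Mk k)) atTop
      (𝓝 (X.I ((L i₀ - (d : ℝ) • A) ::ₘ η₀ ::ₘ η₀ ::ₘ M))) :=
    hCT N P n X ℕ atTop _ _
      (MT.cons (hg.sub hcdA) (MT.cons hη (MT.cons hη hMT)))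
      (by simp only [Multiset.card_cons]; omega)
  have l5 : Tendsto (fun k => X.I ((Lk k i₀ - (d : ℝ) • A) ::ₘ A ::ₘ A ::ₘ Mk k)) atTop
      (𝓝 (X.I ((L i₀ - (d : ℝ) • A) ::ₘ A ::ₘ A ::ₘ M))) :=
    hCT N P n X ℕ atTop _ _
      (MT.cons (hg.sub hcdA) (MT.cons hcA (MT.cons hcA hMT)))
      (by simp only [Multiset.card_cons]; omega)
  set Φ := X.I ((L i₀ - (d : ℝ) • A) ::ₘ η₀ ::ₘ η₀ ::ₘ M) with hΦ
  set Ψ := X.I ((L i₀ - (d : ℝ) • A) ::ₘ A ::ₘ A ::ₘ M) with hΨ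
  have hΦpos : 0 < Φ := by
    rw [hΦ, X.I_sub _ _ (by simp only [Multiset.card_cons]; omega),
      X.I_smul _ _ (by simp only [Multiset.card_cons]; omega)]
    have e1 : X.I (L i₀ ::ₘ η₀ ::ₘ η₀ ::ₘ M) = 0 := by
      have := hker η₀
      rw [hmsL] at this
      rw [← this]
      congr 1
      rw [Multiset.cons_swap (L i₀) η₀, Multiset.cons_swap (L i₀) η₀]
    have e2 : X.I (A ::ₘ η₀ ::ₘ η₀ ::ₘ M) = X.q (A ::ₘ M) η₀ η₀ := by
      unfold Geo.q
      congr 1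
      rw [Multiset.cons_swap A η₀, Multiset.cons_swap A η₀]
    rw [e1, e2]
    nlinarith [mul_pos hdR (neg_pos.2 h3)]
  set c := Φ / (2 * (|Ψ| + 1)) with hc
  have hcpos : 0 < c := by positivity
  have hcΨ : c * Ψ < Φ := by
    have h7 : c * Ψ ≤ c * |Ψ| := mul_le_mul_of_nonneg_left (le_abs_self _) hcpos.le
    have h8 : c * (2 * (|Ψ| + 1)) = Φ := by
      rw [hc]; field_simp
    have h9 := abs_nonneg Ψ
    nlinarith
  have l6 : Tendsto (fun k => (c + 2 * C ^ 2 * ‖x k‖ * ‖η k‖ / d) *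
      X.I ((Lk k i₀ - (d : ℝ) • A) ::ₘ A ::ₘ A ::ₘ Mk k)) atTop (𝓝 (c * Ψ)) := by
    have t1 : Tendsto (fun k => c + 2 * C ^ 2 * ‖x k‖ * ‖η k‖ / d) atTop (𝓝 c) := by
      have t2 : Tendsto (fun k => c + 2 * C ^ 2 * ‖x k‖ * ‖η k‖ / d) atTop
          (𝓝 (c + 2 * C ^ 2 * ‖(0 : N)‖ * ‖η₀‖ / d)) :=
        tendsto_const_nhds.add (((tendsto_const_nhds.mul hx0.norm).mul hη.norm).div_const _)
      simpa using t2
    exact t1.mul l5
  have hev := (l1.eventually_lt l2 hd1).and (l3.and (l6.eventually_lt l4 hcΨ))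
  obtain ⟨k₀, hk₀⟩ := eventually_atTop.1 hev
  have hD : ∀ k, k₀ ≤ k → ∃ D : P, X.I (η k ::ₘ X.cl D ::ₘ Lk k i₀ ::ₘ Mk k) ≠ 0 ∧
      c * X.I (X.cl D ::ₘ A ::ₘ A ::ₘ Mk k) < X.I (X.cl D ::ₘ η k ::ₘ η k ::ₘ Mk k) := by
    intro k hk
    obtain ⟨c1, c2, c3⟩ := hk₀ k hk
    by_contra hcon
    push Not at hcon
    refine absurd (hS1 N P n X A hA C hC0 hC (Mk k) (hcMk k) (hMkG k) (Lk k i₀) (hgG k) d hd0 c1
      ?_ (η k) (x k) (hx k) c hcpos.le ?_) (not_le.2 c3)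
    · intro j h' hj
      have hmem : j ∈ Mk k := by rw [hj]; simp
      obtain ⟨i, hi, hij⟩ := (mem_mss _ _ _).1 hmem
      have h10 : Mk k = Lk k i ::ₘ mss ((Finset.univ.erase i₀).erase i) (Lk k) :=
        mss_erase _ _ hi
      rw [h10, ← hij, Multiset.cons_inj_right] at hj
      rw [← hj]
      exact c2 i hi
    · intro D
      by_cases h0 : X.I (η k ::ₘ X.cl D ::ₘ Lk k i₀ ::ₘ Mk k) = 0
      · exact Or.inl h0
      · exact Or.inr (hcon D h0)
  choose D hD1 hD2 using fun m : ℕ => hD (k₀ + m) (by omega)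
  have hshift : Tendsto (fun m : ℕ => k₀ + m) atTop atTop :=
    tendsto_atTop_mono (fun m => Nat.le_add_left m k₀) tendsto_id
  refine hS6 N P ι n X A hA hcard L hL i₀ (fun m => Mk (k₀ + m)) (fun m => Lk (k₀ + m) i₀)
    (fun m => η (k₀ + m)) (fun m => x (k₀ + m)) η₀ D c (hMT.comp hshift) ?_ (hg.comp hshift)
    (hη.comp hshift) (hx0.comp hshift) (fun m y => hx (k₀ + m) y) ?_ hcpos (fun m => (hD2 m).le)
  · intro m b hb
    exact subset_closure (hMkG _ b hb)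
  · intro m hK
    apply hD1 m
    have hmem : X.cl (D m) ∈ X.V L := Submodule.subset_span ⟨D m, hK, rfl⟩
    have := hV (k₀ + m) _ hmem
    rw [← hms (k₀ + m)]
    exact this

end Pool.Agent.H16.SC
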