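import Pool.Agent.H16.SC.Targets

/-!
Modules MN, SV of block B1 of MP_f2954d_ag.
-/

namespace Pool.Agent.H16.SC

open SCB Filter Topology

theorem kmn (h1 : T_BS) (h2 : T_FI) : T_MN := by
  intro N P ι _ _ _ _ n X A hA hcard
  classical
  have key : ∀ (m : ℕ) (L : ι → N), X.na L = m → X.NS A L → X.Thm L := by
    intro m
    induction m using Nat.strong_induction_on with
    | _ m ih =>
      intro L hm hL
      by_cases h : ∃ i, L i ∉ X.Amp
      · refine h2 N P ι n X A hA hcard L hL ?_ h
        intro L' hL' hlt
        exact ih _ (by omega) L' rfl hL'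
      · push Not at h
        intro x hx
        have : x = 0 := h1 N P n X (ms L) (by rw [card_ms]; exact hcard) (by
          intro a ha
          obtain ⟨i, rfl⟩ := (mem_ms L a).1 ha
          exact h i) x hx
        rw [this]
        exact Submodule.zero_mem _
  intro L hL
  exact key _ L rfl hL

theorem ksv (h1 : T_BS) : T_SV := by
  intro N P _ _ _ n X s t η hs hamp ht
  have hS := X.symBil_q hs
  have hT := X.symBil_q ht
  let T : N →ₗ[ℝ] Module.Dual ℝ N :=
    LinearMap.mk₂ ℝ (X.q s) hS.add hS.smul hS.add' (fun c x y => hS.smul' c x y)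
  let U : Module.Dual ℝ N :=
    { toFun := X.q t η
      map_add' := hT.add' η
      map_smul' := fun c y => hT.smul' c η y }
  have hinj : Function.Injective T := by
    rw [← LinearMap.ker_eq_bot, LinearMap.ker_eq_bot']
    intro x hx
    refine h1 N P n X s hs hamp x fun y => ?_
    have := congrArg (fun f : Module.Dual ℝ N => f y) hx
    simpa [T, Geo.q] using this
  have hsurj : Function.Surjective T :=
    (LinearMap.injective_iff_surjective_of_finrank_eq_finrank
      (by rw [Subspace.dual_finrank_eq])).1 hinj
  obtain ⟨x, hx⟩ := hsurj U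
  refine ⟨x, fun y => ?_⟩
  have := congrArg (fun f : Module.Dual ℝ N => f y) hx
  simpa [T, U, Geo.q] using this

end Pool.Agent.H16.SC
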