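import Pool.Agent.H16.SC.KLR

/-!
Nondegeneracy of the forms given by ample classes modulo numerically trivial classes, in a real
vector space of arbitrary dimension (for block B7 of MP_f2954d_ag).
-/

namespace Pool.Agent.H16.SC

open SCB Filter Topology

section

variable {N : Type} [AddCommGroup N] [Module ℝ N] {n : ℕ} (I : Multiset N → ℝ)
  (hadd : ∀ (a b : N) (s : Multiset N), s.card + 1 = n → I ((a + b) ::ₘ s) = I (a ::ₘ s) + I (b ::ₘ s))
  (hsmul : ∀ (c : ℝ) (a : N) (s : Multiset N), s.card + 1 = n → I ((c • a) ::ₘ s) = c * I (a ::ₘ s))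
  (G : Set N) (hne : G.Nonempty) (hopen : ∀ g ∈ G, ∀ x : N, ∃ t : ℝ, 0 < t ∧ g + t • x ∈ Cone G)
  (hpos : ∀ s : Multiset N, s.card = n → (∀ a ∈ s, a ∈ G) → 0 < I s)
  (hlor : ∀ s : Multiset N, s.card + 2 = n → (∀ a ∈ s, a ∈ G) → Lor (fun x y => I (x ::ₘ y ::ₘ s)))

include hadd hsmul

lemma pre_zero {s : Multiset N} (h : s.card + 1 = n) : I ((0 : N) ::ₘ s) = 0 := by
  have := hsmul 0 0 s h; simpa using this

lemma pre_sum {κ : Type} (T : Finset κ) (f : κ → N) {s : Multiset N} (h : s.card + 1 = n) :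
    I ((∑ i ∈ T, f i) ::ₘ s) = ∑ i ∈ T, I (f i ::ₘ s) := by
  classical
  induction T using Finset.induction_on with
  | empty => simp [pre_zero I hadd hsmul h]
  | insert a T ha ih => rw [Finset.sum_insert ha, Finset.sum_insert ha, hadd _ _ _ h, ih]

lemma pre_symBil {s : Multiset N} (h : s.card + 2 = n) :
    SymBil (fun x y => I (x ::ₘ y ::ₘ s)) where
  symm x y := by
    show I _ = I _
    rw [Multiset.cons_swap]
  add a b y := hadd _ _ _ (by simp; omega)
  smul c a y := hsmul _ _ _ (by simp; omega)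

include hopen hpos hlor

/-- exchange of one class -/
lemma pre_exchange {a b : N} (ha : a ∈ G) (hb : b ∈ G) {R : Multiset N} (hR : ∀ c ∈ R, c ∈ G)
    (hc : R.card + 3 = n) {x : N} (h : ∀ y, I (x ::ₘ y ::ₘ a ::ₘ R) = 0) (y : N) :
    I (x ::ₘ y ::ₘ b ::ₘ R) = 0 := by
  have hcons : ∀ b' ∈ G, ∀ c ∈ b' ::ₘ R, c ∈ G := by
    intro b' hb' c hc
    rcases Multiset.mem_cons.1 hc with rfl | hc
    · exact hb'
    · exact hR c hc
  have hcard : ∀ b' : N, (b' ::ₘ R).card + 2 = n := by
    intro b'; rw [Multiset.card_cons]; omega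
  have hswap : ∀ b', I (a ::ₘ x ::ₘ b' ::ₘ R) = 0 := by
    intro b'
    rw [Multiset.cons_swap, Multiset.cons_swap a b']
    exact h b'
  have hf : ∀ b' ∈ G, I (x ::ₘ x ::ₘ b' ::ₘ R) ≤ 0 := by
    intro b' hb'
    have h1 := hlor (b' ::ₘ R) (hcard b') (hcons b' hb')
    refine lr1 h1 a x ?_ (hswap b')
    refine hpos _ (by simp only [Multiset.card_cons]; omega) ?_
    intro c hc
    rcases Multiset.mem_cons.1 hc with rfl | hc
    · exact ha
    rcases Multiset.mem_cons.1 hc with rfl | hc
    · exact ha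
    exact hcons b' hb' c hc
  -- the linear function `f`
  have hperm : ∀ z, I (x ::ₘ x ::ₘ z ::ₘ R) = I (z ::ₘ x ::ₘ x ::ₘ R) := by
    intro z
    rw [Multiset.cons_swap x z, Multiset.cons_swap x z]
  have hfcone : ∀ z ∈ Cone G, I (z ::ₘ x ::ₘ x ::ₘ R) ≤ 0 := by
    rintro z ⟨r, g, c, hgc, rfl⟩
    rw [pre_sum I hadd hsmul _ _ (by simp only [Multiset.card_cons]; omega)]
    refine Finset.sum_nonpos fun i _ => ?_
    rw [hsmul _ _ _ (by simp only [Multiset.card_cons]; omega)]
    have := hf (g i) (hgc i).1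
    rw [hperm] at this
    exact mul_nonpos_of_nonneg_of_nonpos (hgc i).2.le this
  have hfb : I (x ::ₘ x ::ₘ b ::ₘ R) = 0 := by
    refine le_antisymm (hf b hb) ?_
    obtain ⟨t, ht, hmem⟩ := hopen a ha (-b)
    have h2 := hfcone _ hmem
    rw [hadd _ _ _ (by simp only [Multiset.card_cons]; omega),
      hsmul _ _ _ (by simp only [Multiset.card_cons]; omega)] at h2
    have h3 : I ((-b) ::ₘ x ::ₘ x ::ₘ R) = - I (b ::ₘ x ::ₘ x ::ₘ R) := by
      have := hsmul (-1) b (x ::ₘ x ::ₘ R) (by simp only [Multiset.card_cons]; omega)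
      simpa using this
    have h4 : I (a ::ₘ x ::ₘ x ::ₘ R) = 0 := by
      rw [← hperm]; exact h x
    rw [h3, h4] at h2
    rw [hperm]
    nlinarith
  have h5 := hlor (b ::ₘ R) (hcard b) (hcons b hb)
  refine lr2 (pre_symBil I hadd hsmul (hcard b)) h5 a x ?_ (hswap b) hfb y
  refine hpos _ (by simp only [Multiset.card_cons]; omega) ?_
  intro c hc
  rcases Multiset.mem_cons.1 hc with rfl | hc
  · exact ha
  rcases Multiset.mem_cons.1 hc with rfl | hc
  · exact ha
  exact hcons b hb c hc

lemma pre_exchange_all {x : N} (s : Multiset N) : ∀ (t u : Multiset N), (∀ c ∈ s, c ∈ G) →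
    (∀ c ∈ t, c ∈ G) → (∀ c ∈ u, c ∈ G) → s.card = t.card → s.card + u.card + 2 = n →
    (∀ y, I (x ::ₘ y ::ₘ (s + u)) = 0) → ∀ y, I (x ::ₘ y ::ₘ (t + u)) = 0 := by
  induction s using Multiset.induction_on with
  | empty =>
    intro t u _ _ _ hst _ h
    have : t = 0 := Multiset.card_eq_zero.1 (by simpa using hst.symm)
    rw [this]; exact h
  | cons a s ih =>
    intro t u hs ht hu hst hn h
    obtain ⟨b, t', rfl⟩ : ∃ b t', t = b ::ₘ t' := by
      have : 0 < t.card := by rw [← hst]; simp
      obtain ⟨b, hb⟩ := Multiset.card_pos_iff_exists_mem.1 this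
      exact ⟨b, _, (Multiset.exists_cons_of_mem hb).choose_spec⟩
    simp only [Multiset.card_cons] at hst hn
    have h1 : ∀ y, I (x ::ₘ y ::ₘ b ::ₘ (s + u)) = 0 :=
      pre_exchange I hadd hsmul G hopen hpos hlor (hs a (by simp)) (ht b (by simp))
        (R := s + u) (by
          intro c hc
          rcases Multiset.mem_add.1 hc with hc | hc
          · exact hs c (by simp [hc])
          · exact hu c hc) (by rw [Multiset.card_add]; omega) (by
          intro y
          have := h y
          rwa [Multiset.cons_add] at this)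
    have h2 := ih t' (b ::ₘ u) (fun c hc => hs c (by simp [hc])) (fun c hc => ht c (by simp [hc]))
      (by
        intro c hc
        rcases Multiset.mem_cons.1 hc with rfl | hc
        · exact ht _ (by simp)
        · exact hu c hc) (by omega) (by simp only [Multiset.card_cons]; omega) (by
        intro y
        rw [Multiset.add_cons]
        exact h1 y)
    intro y
    have := h2 y
    rwa [Multiset.add_cons, ← Multiset.cons_add] at this

include hne

/-- If `x` is in the kernel of the form given by `n - 2` ample classes then `x` is numerically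
trivial. -/
theorem pre_nondeg {x : N} {s : Multiset N} (hs : s.card + 2 = n) (hsG : ∀ a ∈ s, a ∈ G)
    (h : ∀ y, I (x ::ₘ y ::ₘ s) = 0) (w : Multiset N) (hw : w.card + 1 = n) : I (x ::ₘ w) = 0 := by
  have h1 : ∀ t : Multiset N, t.card + 2 = n → (∀ a ∈ t, a ∈ G) → ∀ y, I (x ::ₘ y ::ₘ t) = 0 := by
    intro t ht htG y
    have := pre_exchange_all I hadd hsmul G hopen hpos hlor (x := x) s t 0 hsG htG (by simp)
      (by omega) (by simpa using hs) (by simpa using h) y
    simpa using this
  obtain ⟨g, hg⟩ := hne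
  -- spanning
  have key : ∀ (w₁ w₂ : Multiset N), (∀ a ∈ w₂, a ∈ G) → w₁.card + w₂.card + 1 = n →
      I (x ::ₘ (w₁ + w₂)) = 0 := by
    intro w₁
    induction w₁ using Multiset.induction_on with
    | empty =>
      intro w₂ hw₂ hc
      obtain ⟨b, t', rfl⟩ : ∃ b t', w₂ = b ::ₘ t' := by
        have : 0 < w₂.card := by simp at hc; omega
        obtain ⟨b, hb⟩ := Multiset.card_pos_iff_exists_mem.1 this
        exact ⟨b, _, (Multiset.exists_cons_of_mem hb).choose_spec⟩
      rw [zero_add]
      exact h1 t' (by simp only [Multiset.card_cons, Multiset.card_zero] at hc; omega)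
        (fun a ha => hw₂ a (by simp [ha])) b
    | cons v w₁ ih =>
      intro w₂ hw₂ hc
      simp only [Multiset.card_cons] at hc
      have hlin : ∀ z ∈ G, I (z ::ₘ x ::ₘ (w₁ + w₂)) = 0 := by
        intro z hz
        have := ih (z ::ₘ w₂) (by
          intro a ha
          rcases Multiset.mem_cons.1 ha with rfl | ha
          · exact hz
          · exact hw₂ a ha) (by simp only [Multiset.card_cons]; omega)
        rw [Multiset.add_cons, Multiset.cons_swap] at this
        exact this
      have hcd : (x ::ₘ (w₁ + w₂)).card + 1 = n := by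
        simp only [Multiset.card_cons, Multiset.card_add]; omega
      obtain ⟨t, ht, hmem⟩ := hopen g hg v
      have hcone : I ((g + t • v) ::ₘ x ::ₘ (w₁ + w₂)) = 0 := by
        obtain ⟨r, g', c, hgc, he⟩ := hmem
        rw [he, pre_sum I hadd hsmul _ _ hcd]
        refine Finset.sum_eq_zero fun i _ => ?_
        rw [hsmul _ _ _ hcd, hlin _ (hgc i).1, mul_zero]
      rw [hadd _ _ _ hcd, hsmul _ _ _ hcd, hlin g hg, zero_add] at hcone
      rw [Multiset.cons_add, Multiset.cons_swap]
      rcases mul_eq_zero.1 hcone with h0 | h0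
      · exact absurd h0 ht.ne'
      · exact h0
  have := key w 0 (by simp) (by simpa using hw)
  simpa using this

end

end Pool.Agent.H16.SC
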