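import Pool.Agent.H16.SC.Basic

/-!
Targets of block B1 (abstract kernel theorem) for MP_f2954d_ag.
-/

namespace SCB

open Filter Topology

/-- calculus of Lorentzian forms -/
def T_LR : Prop := ∀ (N : Type) [AddCommGroup N] [Module ℝ N] (q : N → N → ℝ), SymBil q → Lor q →
  (∀ x y, 0 < q x x → q x y = 0 → q y y ≤ 0) ∧
  (∀ x y, 0 < q x x → q x y = 0 → q y y = 0 → ∀ z, q y z = 0) ∧
  (∀ g a x, 0 < q g g → 0 < q g a → 0 ≤ q a a → q x x ≤ 2 * (q g x / q g a) * q a x)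

/-- limits of Lorentzian forms -/
def T_LL : Prop := ∀ (N : Type) (q : ℕ → N → N → ℝ) (q₀ : N → N → ℝ), (∀ k, Lor (q k)) →
  (∀ x y, Tendsto (fun k => q k x y) atTop (𝓝 (q₀ x y))) → Lor q₀

/-- intersection numbers from a symmetric multilinear map -/
def T_GL : Prop := ∀ (N : Type) [AddCommGroup N] [Module ℝ N] (n : ℕ)
  (μ : MultilinearMap ℝ (fun _ : Fin n => N) ℝ),
  (∀ (σ : Equiv.Perm (Fin n)) (D : Fin n → N), μ (fun i => D (σ i)) = μ D) →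
  (∀ (κ : Type) [Fintype κ] (e : Fin n ≃ κ) (f : κ → N), ofMulti μ (ms f) = μ (fun i => f (e i))) ∧
  (∀ (a b : N) (s : Multiset N), s.card + 1 = n →
    ofMulti μ ((a + b) ::ₘ s) = ofMulti μ (a ::ₘ s) + ofMulti μ (b ::ₘ s)) ∧
  (∀ (c : ℝ) (a : N) (s : Multiset N), s.card + 1 = n →
    ofMulti μ ((c • a) ::ₘ s) = c * ofMulti μ (a ::ₘ s))

/-- expansion of a product of sums -/
def T_EX : Prop := ∀ (N P ι : Type) [AddCommGroup N] [Module ℝ N] [Fintype ι] [DecidableEq ι]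
  (n : ℕ) (X : Geo N P n) (L R : ι → N) (W : Multiset N), W.card + Fintype.card ι = n →
  X.I (W + ms (fun i => L i + R i)) = ∑ S : Finset ι, X.I (W + (mss S R + mss Sᶜ L))

/-- scaling of some factors -/
def T_SC : Prop := ∀ (N P ι : Type) [AddCommGroup N] [Module ℝ N] [DecidableEq ι]
  (n : ℕ) (X : Geo N P n) (S : Finset ι) (e : ℝ) (a : ι → N) (W : Multiset N), W.card + S.card = n →
  X.I (W + mss S (fun i => e • a i)) = e ^ S.card * X.I (W + mss S a)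

section

variable (N P : Type) [NormedAddCommGroup N] [NormedSpace ℝ N] [FiniteDimensional ℝ N] (n : ℕ)
  (X : Geo N P n)

/-- the nef cone and the ample cone -/
def T_CN : Prop := ∀ (N P : Type) [NormedAddCommGroup N] [NormedSpace ℝ N] [FiniteDimensional ℝ N]
  (n : ℕ) (X : Geo N P n),
  (∀ a ∈ X.Nef, ∀ b ∈ X.Nef, a + b ∈ X.Nef) ∧
  (∀ a ∈ X.Nef, ∀ c : ℝ, 0 ≤ c → c • a ∈ X.Nef) ∧
  (∀ g ∈ X.G, g ∈ X.Amp) ∧
  (∀ a ∈ X.Amp, ∃ C : ℝ, 0 < C ∧ ∀ x : N, (C * ‖x‖) • a + x ∈ X.Nef) ∧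
  (∀ a ∈ X.Amp, ∀ b ∈ X.Nef, a + b ∈ X.Amp) ∧
  (∀ a ∈ X.Amp, ∀ c : ℝ, 0 < c → c • a ∈ X.Amp)

/-- continuity of the intersection numbers -/
def T_CT : Prop := ∀ (N P : Type) [NormedAddCommGroup N] [NormedSpace ℝ N] [FiniteDimensional ℝ N]
  (n : ℕ) (X : Geo N P n) (α : Type) (l : Filter α) (s : α → Multiset N) (s₀ : Multiset N),
  MT l s s₀ → s₀.card = n → Tendsto (fun a => X.I (s a)) l (𝓝 (X.I s₀))

/-- approximation of nef classes -/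
def T_AP : Prop := ∀ (N P : Type) [NormedAddCommGroup N] [NormedSpace ℝ N]
  (n : ℕ) (X : Geo N P n) (s : Multiset N), (∀ a ∈ s, a ∈ X.Nef) →
  ∃ σ : ℕ → Multiset N, (∀ k, ∀ a ∈ σ k, a ∈ X.G) ∧ (∀ k, (σ k).card = s.card) ∧ MT atTop σ s

/-- positivity for nef classes -/
def T_PS : Prop := ∀ (N P : Type) [NormedAddCommGroup N] [NormedSpace ℝ N] [FiniteDimensional ℝ N]
  (n : ℕ) (X : Geo N P n),
  (∀ s : Multiset N, s.card = n → (∀ a ∈ s, a ∈ X.Nef) → 0 ≤ X.I s) ∧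
  (∀ D : P, X.Pos (X.cl D)) ∧
  (∀ (D D' : P), D ≠ D' → ∀ s : Multiset N, s.card + 2 = n → (∀ a ∈ s, a ∈ X.Nef) →
    0 ≤ X.I (X.cl D ::ₘ X.cl D' ::ₘ s)) ∧
  (∀ s : Multiset N, s.card + 2 = n → (∀ a ∈ s, a ∈ X.Nef) → Lor (X.q s)) ∧
  (∀ (D : P) (s : Multiset N), s.card + 3 = n → (∀ a ∈ s, a ∈ X.Nef) →
    Lor (fun x y => X.I (X.cl D ::ₘ x ::ₘ y ::ₘ s)))

/-- positivity for ample classes -/
def T_PA : Prop := ∀ (N P : Type) [NormedAddCommGroup N] [NormedSpace ℝ N] [FiniteDimensional ℝ N]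
  (n : ℕ) (X : Geo N P n),
  (∀ s : Multiset N, s.card = n → (∀ a ∈ s, a ∈ X.Amp) → 0 < X.I s) ∧
  (∀ (D : P) (s : Multiset N), s.card + 1 = n → (∀ a ∈ s, a ∈ X.Amp) → 0 < X.I (X.cl D ::ₘ s))

/-- products with nonnegative classes -/
def T_PM : Prop := ∀ (N P : Type) [NormedAddCommGroup N] [NormedSpace ℝ N] [FiniteDimensional ℝ N]
  (n : ℕ) (X : Geo N P n),
  (∀ (W s : Multiset N), X.PosM W → (∀ a ∈ s, a ∈ X.Nef) → X.PosM (W + s)) ∧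
  (∀ s : Multiset N, (∀ a ∈ s, a ∈ X.Nef) → X.PosM s) ∧
  (∀ (x : N) (s : Multiset N), X.Pos x → (∀ a ∈ s, a ∈ X.Nef) → X.PosM (x ::ₘ s)) ∧
  (∀ (W : Multiset N) (a b : N), X.PosM W → b - a ∈ X.Nef → ∀ s : Multiset N,
    W.card + s.card + 1 = n → (∀ c ∈ s, c ∈ X.Nef) → X.I (a ::ₘ (W + s)) ≤ X.I (b ::ₘ (W + s)))

/-- vanishing is tested on ample classes -/
def T_DM : Prop := ∀ (N P : Type) [NormedAddCommGroup N] [NormedSpace ℝ N] [FiniteDimensional ℝ N]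
  (n : ℕ) (X : Geo N P n) (W T : Multiset N), X.PosM W → (∀ a ∈ T, a ∈ X.Amp) →
  W.card + T.card = n → X.I (W + T) = 0 → ∀ s : Multiset N, s.card = T.card → X.I (W + s) = 0

/-- monotonicity -/
def T_MO : Prop := ∀ (N P ι : Type) [NormedAddCommGroup N] [NormedSpace ℝ N]
  [FiniteDimensional ℝ N] [Fintype ι] [DecidableEq ι] (n : ℕ) (X : Geo N P n) (W : Multiset N)
  (L L' : ι → N), X.PosM W → (∀ i, L i ∈ X.Nef) → (∀ i, L' i ∈ X.Nef) →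
  (∀ i, ∃ c : ℝ, 0 < c ∧ c • L' i - L i ∈ X.Nef) → W.card + Fintype.card ι = n →
  0 < X.I (W + ms L) → 0 < X.I (W + ms L')

/-- calculus of nonzero products of nef classes -/
def T_NZ : Prop := ∀ (N P : Type) [NormedAddCommGroup N] [NormedSpace ℝ N] [FiniteDimensional ℝ N]
  (n : ℕ) (X : Geo N P n) (A : N), A ∈ X.G →
  (∀ Z Z' : Multiset N, (∀ a ∈ Z, a ∈ X.Nef) → (∀ a ∈ Z', a ∈ X.Nef) → X.Nz A (Z + Z') →
    X.Nz A Z) ∧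
  (∀ Z : Multiset N, (∀ a ∈ Z, a ∈ X.Nef) → Z.card ≤ n → ¬ X.Nz A Z →
    ∀ s : Multiset N, Z.card + s.card = n → X.I (Z + s) = 0) ∧
  (∀ (Z : Multiset N) (a b : N) (k : ℕ), (∀ c ∈ Z, c ∈ X.Nef) → a ∈ X.Nef → b ∈ X.Nef →
    X.Nz A (Z + Multiset.replicate k a) → X.Nz A (Z + Multiset.replicate k (a + b))) ∧
  (∀ Z : Multiset N, Z.card ≤ n → (∀ a ∈ Z, a ∈ X.Amp) → X.Nz A Z)

/-- the key lemma on products of nef classes -/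
def T_NL : Prop := ∀ (N P : Type) [NormedAddCommGroup N] [NormedSpace ℝ N] [FiniteDimensional ℝ N]
  (n : ℕ) (X : Geo N P n) (A : N), A ∈ X.G → ∀ (k : ℕ) (Z : Multiset N) (B C : N),
  (∀ a ∈ Z, a ∈ X.Nef) → B ∈ X.Nef → C ∈ X.Nef → X.Nz A (Z + Multiset.replicate k C) →
  X.Nz A (B ::ₘ Z) → X.Nz A (Z + Multiset.replicate (k + 1) (B + C)) →
  X.Nz A (B ::ₘ (Z + Multiset.replicate k C))

/-- Hall-Rado criterion -/
def T_NT : Prop := ∀ (N P κ : Type) [NormedAddCommGroup N] [NormedSpace ℝ N]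
  [FiniteDimensional ℝ N] [Fintype κ] (n : ℕ) (X : Geo N P n) (A : N), A ∈ X.G →
  ∀ B : κ → N, (∀ i, B i ∈ X.Nef) → Fintype.card κ ≤ n →
  (∀ J : Finset κ, J.Nonempty → X.Nz A (Multiset.replicate J.card (∑ i ∈ J, B i))) →
  X.Nz A (ms B)

/-- positivity -/
def T_P : Prop := ∀ (N P ι : Type) [NormedAddCommGroup N] [NormedSpace ℝ N]
  [FiniteDimensional ℝ N] [Fintype ι] (n : ℕ) (X : Geo N P n) (A : N), A ∈ X.G →
  Fintype.card ι + 2 = n → ∀ L : ι → N, X.NS A L → ∀ i, 0 < X.I (L i ::ₘ L i ::ₘ ms L)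

/-- replacing members by the ample class -/
def T_RP : Prop := ∀ (N P ι : Type) [NormedAddCommGroup N] [NormedSpace ℝ N]
  [FiniteDimensional ℝ N] [Fintype ι] [DecidableEq ι] (n : ℕ) (X : Geo N P n) (A : N), A ∈ X.G →
  Fintype.card ι + 2 = n → ∀ L : ι → N, X.NS A L → ∀ S : Finset ι,
  X.NS A (rep A S L) ∧ (∀ i, 0 < X.I (L i ::ₘ L i ::ₘ ms (rep A S L))) ∧
    ((∃ i ∈ S, L i ∉ X.Amp) → X.na (rep A S L) < X.na L)

/-- nondegeneracy for ample classes -/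
def T_BS : Prop := ∀ (N P : Type) [NormedAddCommGroup N] [NormedSpace ℝ N]
  [FiniteDimensional ℝ N] (n : ℕ) (X : Geo N P n) (s : Multiset N), s.card + 2 = n →
  (∀ a ∈ s, a ∈ X.Amp) → ∀ x : N, (∀ y, X.I (x ::ₘ y ::ₘ s) = 0) → x = 0

/-- the chain lemma -/
def T_CH : Prop := ∀ (N P ι : Type) [NormedAddCommGroup N] [NormedSpace ℝ N]
  [FiniteDimensional ℝ N] [Fintype ι] (n : ℕ) (X : Geo N P n) (A : N), A ∈ X.G →
  Fintype.card ι + 2 = n → ∀ L : ι → N, X.NS A L → ∀ d : N, X.Ker L d →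
  (∀ B : Multiset N, B.card + 2 = n → (∀ b ∈ B, b ∈ X.Nef) → 0 ≤ X.I (d ::ₘ d ::ₘ B)) → d = 0

/-- limits of prime divisors outside the kernel -/
def T_L1 : Prop := ∀ (N P ι : Type) [NormedAddCommGroup N] [NormedSpace ℝ N]
  [FiniteDimensional ℝ N] [Fintype ι] (n : ℕ) (X : Geo N P n) (A : N), A ∈ X.G →
  Fintype.card ι + 2 = n → ∀ L : ι → N, X.NS A L → ∀ (D : ℕ → P) (t : ℕ → ℝ) (d : N),
  (∀ k, 0 ≤ t k) → Tendsto (fun k => t k • X.cl (D k)) atTop (𝓝 d) →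
  (∀ k, ¬ X.Ker L (X.cl (D k))) → X.Ker L d → d = 0

/-- the norm of a nonnegative class is bounded by its degree -/
def T_NB : Prop := ∀ (N P : Type) [NormedAddCommGroup N] [NormedSpace ℝ N]
  [FiniteDimensional ℝ N] (n r : ℕ) (X : Geo N P n) (A : N), A ∈ X.G → r + 1 = n →
  ∃ C : ℝ, 0 < C ∧ ∀ x : N, X.Pos x → ‖x‖ ≤ C * X.I (x ::ₘ Multiset.replicate r A)

/-- uniform positivity outside the kernel -/
def T_L2 : Prop := ∀ (N P ι : Type) [NormedAddCommGroup N] [NormedSpace ℝ N]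
  [FiniteDimensional ℝ N] [Fintype ι] (n r : ℕ) (X : Geo N P n) (A : N), A ∈ X.G →
  Fintype.card ι + 2 = n → r + 1 = n → ∀ L : ι → N, X.NS A L →
  ∃ c : ℝ, 0 < c ∧ ∀ D : P, ¬ X.Ker L (X.cl D) →
    c * X.I (X.cl D ::ₘ Multiset.replicate r A) ≤ X.I (X.cl D ::ₘ A ::ₘ ms L)

/-- the terms of order `s` -/
def T_CS : Prop := ∀ (N P ι : Type) [NormedAddCommGroup N] [NormedSpace ℝ N]
  [FiniteDimensional ℝ N] [Fintype ι] [DecidableEq ι] (n : ℕ) (X : Geo N P n) (A : N),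
  Fintype.card ι + 2 = n → ∀ (L : ι → N) (e : ℕ → ℝ) (a : ℕ → ι → N) (x : ℕ → N) (x₀ : N),
  (∀ k, 0 < e k) → Tendsto e atTop (𝓝 0) → (∀ i, Tendsto (fun k => a k i) atTop (𝓝 A)) →
  Tendsto x atTop (𝓝 x₀) → (∀ k, X.I (x k ::ₘ x₀ ::ₘ ms (fun i => L i + e k • a k i)) = 0) →
  ∀ s : ℕ, (∀ S : Finset ι, S.card < s → ∀ w : Multiset N, w.card = S.card + 1 →
    X.I (x₀ ::ₘ (w + mss Sᶜ L)) = 0) →
  ∑ S ∈ Finset.powersetCard s Finset.univ, X.I (x₀ ::ₘ x₀ ::ₘ ms (rep A S L)) = 0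

/-- the classes of `V` are not limits -/
def T_CL : Prop := ∀ (N P ι : Type) [NormedAddCommGroup N] [NormedSpace ℝ N]
  [FiniteDimensional ℝ N] [Fintype ι] (n : ℕ) (X : Geo N P n) (A : N), A ∈ X.G →
  Fintype.card ι + 2 = n → ∀ L : ι → N, X.NS A L → X.IH A L →
  ∀ (e : ℕ → ℝ) (a : ℕ → ι → N) (x : ℕ → N) (x₀ : N),
  (∀ k, 0 < e k) → Tendsto e atTop (𝓝 0) → (∀ i, Tendsto (fun k => a k i) atTop (𝓝 A)) →
  Tendsto x atTop (𝓝 x₀) → (∀ k, X.I (x k ::ₘ x₀ ::ₘ ms (fun i => L i + e k • a k i)) = 0) →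
  x₀ ∈ X.V L → x₀ = 0

/-- the classes `x` with `A M x = L η` tend to `0` -/
def T_X0 : Prop := ∀ (N P ι : Type) [NormedAddCommGroup N] [NormedSpace ℝ N]
  [FiniteDimensional ℝ N] [Fintype ι] [DecidableEq ι] (n : ℕ) (X : Geo N P n) (A : N), A ∈ X.G →
  Fintype.card ι + 2 = n → ∀ L : ι → N, X.NS A L → X.IH A L →
  ∀ (i₀ : ι) (e : ℕ → ℝ) (a : ℕ → ι → N) (η : ℕ → N) (η₀ : N) (x : ℕ → N), L i₀ ∉ X.Amp →
  (∀ k, 0 < e k) → Tendsto e atTop (𝓝 0) → (∀ i, Tendsto (fun k => a k i) atTop (𝓝 A)) →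
  Tendsto η atTop (𝓝 η₀) → X.Ker L η₀ →
  (∀ k, ∀ v ∈ X.V L, X.I (η k ::ₘ v ::ₘ ms (fun i => L i + e k • a k i)) = 0) →
  (∀ k y, X.I (x k ::ₘ y ::ₘ A ::ₘ mss (Finset.univ.erase i₀) (fun i => L i + e k • a k i)) =
    X.I (η k ::ₘ y ::ₘ ms (fun i => L i + e k • a k i))) →
  Tendsto x atTop (𝓝 0)

/-- the estimate on a threefold -/
def T_S1 : Prop := ∀ (N P : Type) [NormedAddCommGroup N] [NormedSpace ℝ N]
  [FiniteDimensional ℝ N] (n : ℕ) (X : Geo N P n) (A : N), A ∈ X.G → ∀ C : ℝ, 0 < C →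
  (∀ x : N, (C * ‖x‖) • A + x ∈ X.Nef) → ∀ h : Multiset N, h.card + 3 = n → (∀ a ∈ h, a ∈ X.G) →
  ∀ g ∈ X.G, ∀ d : ℚ, 0 < d →
  3 * X.I (g ::ₘ g ::ₘ ((d : ℝ) • A) ::ₘ h) < X.I (g ::ₘ g ::ₘ g ::ₘ h) →
  (∀ (j : N) (h' : Multiset N), h = j ::ₘ h' →
    3 * X.I (g ::ₘ g ::ₘ ((d : ℝ) • A) ::ₘ A ::ₘ h') < X.I (g ::ₘ g ::ₘ g ::ₘ A ::ₘ h')) →
  ∀ η x : N, (∀ y, X.I (x ::ₘ y ::ₘ A ::ₘ h) = X.I (η ::ₘ y ::ₘ g ::ₘ h)) → ∀ c : ℝ, 0 ≤ c →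
  (∀ D : P, X.I (η ::ₘ X.cl D ::ₘ g ::ₘ h) = 0 ∨
    X.I (X.cl D ::ₘ η ::ₘ η ::ₘ h) ≤ c * X.I (X.cl D ::ₘ A ::ₘ A ::ₘ h)) →
  X.I ((g - (d : ℝ) • A) ::ₘ η ::ₘ η ::ₘ h) ≤
    (c + 2 * C ^ 2 * ‖x‖ * ‖η‖ / d) * X.I ((g - (d : ℝ) • A) ::ₘ A ::ₘ A ::ₘ h)

/-- prime divisors outside the kernel do not contribute -/
def T_S6 : Prop := ∀ (N P ι : Type) [NormedAddCommGroup N] [NormedSpace ℝ N]
  [FiniteDimensional ℝ N] [Fintype ι] [DecidableEq ι] (n : ℕ) (X : Geo N P n) (A : N), A ∈ X.G →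
  Fintype.card ι + 2 = n → ∀ L : ι → N, X.NS A L →
  ∀ (i₀ : ι) (M : ℕ → Multiset N) (g η x : ℕ → N) (η₀ : N) (D : ℕ → P) (c : ℝ),
  MT atTop M (mss (Finset.univ.erase i₀) L) → (∀ k, ∀ a ∈ M k, a ∈ X.Nef) →
  Tendsto g atTop (𝓝 (L i₀)) → Tendsto η atTop (𝓝 η₀) → Tendsto x atTop (𝓝 0) →
  (∀ k y, X.I (x k ::ₘ y ::ₘ A ::ₘ M k) = X.I (η k ::ₘ y ::ₘ g k ::ₘ M k)) →
  (∀ k, ¬ X.Ker L (X.cl (D k))) → 0 < c →
  ¬ ∀ k, c * X.I (X.cl (D k) ::ₘ A ::ₘ A ::ₘ M k) ≤ X.I (X.cl (D k) ::ₘ η k ::ₘ η k ::ₘ M k)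

/-- choice of the classes `η` and of the perturbation -/
def T_ET : Prop := ∀ (N P ι : Type) [NormedAddCommGroup N] [NormedSpace ℝ N]
  [FiniteDimensional ℝ N] [Fintype ι] (n : ℕ) (X : Geo N P n) (A : N), A ∈ X.G →
  Fintype.card ι + 2 = n → ∀ L : ι → N, X.NS A L → ¬ X.Thm L →
  ∃ (e : ℕ → ℝ) (a : ℕ → ι → N) (η : ℕ → N) (η₀ : N), (∀ k, 0 < e k) ∧ Tendsto e atTop (𝓝 0) ∧
    (∀ i, Tendsto (fun k => a k i) atTop (𝓝 A)) ∧ (∀ k i, L i + e k • a k i ∈ X.G) ∧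
    Tendsto η atTop (𝓝 η₀) ∧ ‖η₀‖ = 1 ∧ X.Ker L η₀ ∧
    ∀ k, ∀ v ∈ X.V L, X.I (η k ::ₘ v ::ₘ ms (fun i => L i + e k • a k i)) = 0

/-- solving `A M x = L η` -/
def T_SV : Prop := ∀ (N P : Type) [NormedAddCommGroup N] [NormedSpace ℝ N]
  [FiniteDimensional ℝ N] (n : ℕ) (X : Geo N P n) (s t : Multiset N) (η : N), s.card + 2 = n →
  (∀ a ∈ s, a ∈ X.Amp) → t.card + 2 = n → ∃ x, ∀ y, X.I (x ::ₘ y ::ₘ s) = X.I (η ::ₘ y ::ₘ t)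

/-- the main step: a family with a non-ample member -/
def T_FI : Prop := ∀ (N P ι : Type) [NormedAddCommGroup N] [NormedSpace ℝ N]
  [FiniteDimensional ℝ N] [Fintype ι] (n : ℕ) (X : Geo N P n) (A : N), A ∈ X.G →
  Fintype.card ι + 2 = n → ∀ L : ι → N, X.NS A L → X.IH A L → (∃ i, L i ∉ X.Amp) → X.Thm L

/-- the kernel theorem for normed spaces -/
def T_MN : Prop := ∀ (N P ι : Type) [NormedAddCommGroup N] [NormedSpace ℝ N]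
  [FiniteDimensional ℝ N] [Fintype ι] (n : ℕ) (X : Geo N P n) (A : N), A ∈ X.G →
  Fintype.card ι + 2 = n → ∀ L : ι → N, X.NS A L → X.Thm L

end

/-- THE ABSTRACT KERNEL THEOREM -/
def T_KT : Prop := ∀ (N P ι : Type) [AddCommGroup N] [Module ℝ N] [FiniteDimensional ℝ N]
  [Fintype ι] (n : ℕ) (X : Geo N P n), Fintype.card ι + 2 = n → ∀ L : ι → N, (∀ i, X.NefA (L i)) →
  (∀ J : Finset ι, J.Nonempty → ∃ s : Multiset N, J.card + 2 + s.card = n ∧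
    X.I (Multiset.replicate (J.card + 2) (∑ i ∈ J, L i) + s) ≠ 0) → X.Thm L

end SCB
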