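import Pool.Agent.H16.SC.KKT
import Pool.Agent.H16.SC.KLR
import Pool.Agent.H16.SC.KMN
import Pool.Agent.H16.SC.KFI
import Pool.Agent.H16.SC.Pre
import Pool.Agent.H49.SC.KCL
import Pool.Agent.H49.SC.KGL
import Pool.Agent.H49.SC.KNZ
import Pool.Agent.H50.SC.KL1
import Pool.Agent.H50.SC.KS1
import Pool.Agent.H66.SC.KNL
import Pool.Agent.H66.SC.KX0
import Pool.Agent.H66.SC.KS6
import Pool.Agent.H73.SC.Pos
import Pool.Agent.H78.SC.KSmall
import Pool.Agent.H78.SC.KCT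
import Pool.Agent.H78.SC.KCS
import Pool.Agent.H79.SC.KCN
import Pool.Agent.H88.SC.KBS
import Pool.Agent.H88.SC.KCH
import Pool.Agent.H88.SC.KL2
import Pool.Agent.H88.SC.KNB
import Pool.Agent.H94.SC.KNT
import Pool.Agent.H94.SC.KP
import Pool.Agent.H94.SC.KRP

/-!
Block B1 of MP_f2954d_ag: the abstract kernel theorem, without hypotheses.
-/

namespace Pool.Agent.H16.SC

open SCB

theorem tLR : T_LR := klr
theorem tLL : T_LL := kll
theorem tGL : T_GL := Pool.Agent.H49.SC.kgl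
theorem tEX : T_EX := Pool.Agent.H78.SC.kex
theorem tSC : T_SC := Pool.Agent.H78.SC.ksc
theorem tCN : T_CN := Pool.Agent.H79.SC.kcn
theorem tCT : T_CT := Pool.Agent.H78.SC.kct
theorem tAP : T_AP := Pool.Agent.H78.SC.kap
theorem tPS : T_PS := Pool.Agent.H73.SC.kps tAP tCT
theorem tPA : T_PA := Pool.Agent.H73.SC.kpa tCN tPS
theorem tPM : T_PM := Pool.Agent.H73.SC.kpm tPS
theorem tDM : T_DM := Pool.Agent.H73.SC.kdm tCN tPM
theorem tMO : T_MO := Pool.Agent.H73.SC.kmo tPM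
theorem tNZ : T_NZ := Pool.Agent.H49.SC.knz tCN tPS tPM tDM tPA
theorem tNL : T_NL := Pool.Agent.H66.SC.KNL.knl tLR tCN tPS tNZ
theorem tNT : T_NT := Pool.Agent.H94.SC.knt tNL tNZ tCN
theorem tP : T_P := Pool.Agent.H94.SC.kp tCN tNT tNZ
theorem tRP : T_RP := Pool.Agent.H94.SC.krp tCN tP tMO tNZ tPM
theorem tBS : T_BS := Pool.Agent.H88.SC.kbs tCN tLR tPS tPA
theorem tCH : T_CH := Pool.Agent.H88.SC.kch tCN tLR tPS tRP tBS
theorem tL1 : T_L1 := H50SC.kl1 tCT tPS tCH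
theorem tNB : T_NB := Pool.Agent.H88.SC.knb tCN tCT tDM tPM
theorem tL2 : T_L2 := Pool.Agent.H88.SC.kl2 tCN tCT tPS tPM tDM tNB tL1
theorem tCS : T_CS := Pool.Agent.H78.SC.kcs tCT tEX tSC
theorem tCL : T_CL := Pool.Agent.H49.SC.kcl tCN tLR tPS tPM tDM tRP tCS
theorem tSV : T_SV := ksv tBS
theorem tET : T_ET := Pool.Agent.H79.SC.ket tCN
theorem tS1 : T_S1 := H50SC.ks1 tLR tCN tCT
theorem tX0 : T_X0 := Pool.Agent.H66.SC.KX0.kx0 tCN tCT tPS tPM tDM tRP tCL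
theorem tS6 : T_S6 :=
  Pool.Agent.H66.SC.KS6.ks6 tCN tCT tLR tLL tPS tPM tDM tRP tNB tL1 tL2
theorem tFI : T_FI := kfi tCN tCT tPS tPM tDM tP tRP tCL tX0 tS1 tS6 tET tSV
theorem tMN : T_MN := kmn tBS tFI

/-- THE ABSTRACT KERNEL THEOREM -/
theorem tKT : T_KT := kkt tCN tNZ tMN

end Pool.Agent.H16.SC
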