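import Pool.Agent.H15.SC.TargetsY

/-!
Module SPN of block B5 of MP_f2954d_ag.
-/

namespace H16SC

open SC SCB

section Cone

variable {M : Type} [AddCommGroup M] [Module ℝ M] {G : Set M}

lemma cone_single {g : M} (hg : g ∈ G) {c : ℝ} (hc : 0 < c) : c • g ∈ Cone G :=
  ⟨0, fun _ => g, fun _ => c, fun _ => ⟨hg, hc⟩, by simp⟩

lemma cone_add {x y : M} (hx : x ∈ Cone G) (hy : y ∈ Cone G) : x + y ∈ Cone G := by
  obtain ⟨r, g, c, h, rfl⟩ := hx
  obtain ⟨r', g', c', h', rfl⟩ := hy
  refine ⟨r + 1 + r', Fin.append (m := r + 1) (n := r' + 1) g g',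
    Fin.append (m := r + 1) (n := r' + 1) c c', ?_, ?_⟩
  · intro i
    refine Fin.addCases (m := r + 1) (n := r' + 1) (fun k => ?_) (fun k => ?_) i
    · rw [Fin.append_left, Fin.append_left]; exact h k
    · rw [Fin.append_right, Fin.append_right]; exact h' k
  · have e := Fin.sum_univ_add (a := r + 1) (b := r' + 1)
      (fun i => Fin.append (m := r + 1) (n := r' + 1) c c' i •
        Fin.append (m := r + 1) (n := r' + 1) g g' i)
    simp only [Fin.append_left, Fin.append_right] at e
    exact e.symm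

lemma cone_smul {x : M} (hx : x ∈ Cone G) {t : ℝ} (ht : 0 < t) : t • x ∈ Cone G := by
  obtain ⟨r, g, c, h, rfl⟩ := hx
  refine ⟨r, g, fun i => t * c i, fun i => ⟨(h i).1, mul_pos ht (h i).2⟩, ?_⟩
  rw [Finset.smul_sum]
  exact Finset.sum_congr rfl fun i _ => by rw [mul_smul]

lemma cone_sum {κ : Type} {T : Finset κ} (hT : T.Nonempty) {f : κ → M}
    (h : ∀ i ∈ T, f i ∈ Cone G) : ∑ i ∈ T, f i ∈ Cone G := by
  induction hT using Finset.Nonempty.cons_induction with
  | singleton a => simpa using h a (by simp)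
  | cons a s ha hs ih =>
    rw [Finset.sum_cons]
    exact cone_add (h a (by simp)) (ih fun i hi => h i (by simp [hi]))

end Cone

section

variable {K : Type} [Field K] [Algebra ℂ K] {N : ℕ} {w : Fin (N + 1) → K}

lemma toR_add' (A B : DivZ w) : toR (A + B) = toR A + toR B := by
  ext v; simp [toR]

lemma toR_sub' (A B : DivZ w) : toR (A - B) = toR A - toR B := by
  ext v; simp [toR]

lemma toR_nsmul' (m : ℕ) (A : DivZ w) : toR (m • A) = (m : ℝ) • toR A := by
  ext v; simp [toR]

lemma toR_zero' : toR (0 : DivZ w) = 0 := by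
  ext v; simp [toR]

lemma toR_single' (v : PDiv w) (z : ℤ) : toR (Finsupp.single v z) = Finsupp.single v (z : ℝ) := by
  simp [toR, Finsupp.mapRange_single]

lemma vamp_hyp (H₀ : DivZ w) : VAmp H₀ H₀ := by
  unfold VAmp
  rw [sub_self]
  intro i hi p hp
  refine ⟨1, ?_, one_ne_zero, ?_⟩
  · intro v
    right
    simp [v.1.ord_one]
  · intro v _
    simp [v.1.ord_one]

theorem spn (h1 : T_XQ) : T_SPN := by
  intro K _ _ N n w i₀ H₀ hw hH
  obtain ⟨-, q2, q3, -⟩ := h1 K N n w hw i₀ H₀ hH
  have hamp : Ample H₀ := q2 H₀ (vamp_hyp H₀)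
  have p1 : ∀ D : DivZ w, ∃ A B : DivZ w, VAmp H₀ A ∧ VAmp H₀ B ∧ D = A - B := by
    intro D
    obtain ⟨m₀, hm₀⟩ := q3 H₀ hamp D
    obtain ⟨m₁, hm₁⟩ := q3 H₀ hamp 0
    refine ⟨D + (max m₀ m₁) • H₀, 0 + (max m₀ m₁) • H₀, hm₀ _ (le_max_left _ _),
      hm₁ _ (le_max_right _ _), by abel⟩
  refine ⟨p1, ?_, ?_⟩
  · intro E
    have hE : E = E.sum fun v c => c • Finsupp.single v (1 : ℝ) := by
      conv_lhs => rw [← Finsupp.sum_single E]
      refine Finsupp.sum_congr fun v _ => ?_
      rw [Finsupp.smul_single, smul_eq_mul, mul_one]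
    rw [hE]
    refine Submodule.sum_mem _ fun v _ => Submodule.smul_mem _ _ ?_
    obtain ⟨A, B, hA, hB, hAB⟩ := p1 (Finsupp.single v 1)
    have : (Finsupp.single v (1 : ℝ) : DivR w) = toR A - toR B := by
      rw [← toR_sub', ← hAB, toR_single']; simp
    rw [this]
    exact Submodule.sub_mem _ (Submodule.subset_span ⟨A, hA, rfl⟩)
      (Submodule.subset_span ⟨B, hB, rfl⟩)
  · intro H E hHa
    classical
    set G : Set (DivR w) := {x | ∃ A : DivZ w, VAmp H₀ A ∧ ∃ q : ℚ, 0 < q ∧ x = (q : ℝ) • toR A}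
      with hG
    have hGv : ∀ A : DivZ w, VAmp H₀ A → toR A ∈ G := fun A hA => ⟨A, hA, 1, one_pos, by simp⟩
    obtain ⟨m₁, hm₁⟩ := q3 H hHa 0
    set M : ℕ := m₁ + 1 with hM
    have hMH : VAmp H₀ (M • H) := by
      have := hm₁ M (by omega); rwa [zero_add] at this
    have hMpos : (0 : ℝ) < M := by rw [hM]; positivity
    have hHc : ∀ c : ℝ, 0 < c → c • toR H ∈ Cone G := by
      intro c hc
      have h3 : c • toR H = (c / M) • toR (M • H) := by
        rw [toR_nsmul', smul_smul]
        congr 1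
        field_simp
      rw [h3]
      exact cone_single (hGv _ hMH) (by positivity)
    by_cases hE0 : E = 0
    · refine ⟨1, one_pos, ?_⟩
      rw [hE0, smul_zero, add_zero]
      have := hHc 1 one_pos
      rwa [one_smul] at this
    have hsupp : E.support.Nonempty := Finsupp.support_nonempty_iff.2 hE0
    -- for every point of the support
    have hv : ∀ v : PDiv w, ∃ t₀ : ℝ, 0 < t₀ ∧ ∀ t : ℝ, 0 < t → t ≤ t₀ →
        (1 / (E.support.card : ℝ)) • toR H + (t * E v) • Finsupp.single v (1 : ℝ) ∈ Cone G ∨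
          E v = 0 := by
      intro v
      by_cases hEv : E v = 0
      · exact ⟨1, one_pos, fun t _ _ => Or.inr hEv⟩
      obtain ⟨s, hs, hs'⟩ : ∃ s : ℤ, ((s : ℝ) * |E v| = E v) ∧ s ≠ 0 := by
        rcases lt_or_gt_of_ne hEv with h | h
        · exact ⟨-1, by rw [abs_of_neg h]; push_cast; ring, by norm_num⟩
        · exact ⟨1, by rw [abs_of_pos h]; push_cast; ring, by norm_num⟩
      obtain ⟨m, hm⟩ := q3 H hHa (Finsupp.single v s)
      have hA := hm (m + 1) (by omega)
      set m' : ℕ := m + 1 with hm'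
      have hm'pos : (0 : ℝ) < m' := by rw [hm']; positivity
      have hcard : (0 : ℝ) < E.support.card := by
        exact_mod_cast Finset.card_pos.2 hsupp
      have hEpos : 0 < |E v| := abs_pos.2 hEv
      refine ⟨1 / (E.support.card * (|E v| * m') * 2), by positivity, fun t ht ht' => Or.inl ?_⟩
      have h4 : (1 / (E.support.card : ℝ)) • toR H + (t * E v) • Finsupp.single v (1 : ℝ) =
          (t * |E v|) • toR (Finsupp.single v s + m' • H) +
          (1 / (E.support.card : ℝ) - t * |E v| * m') • toR H := by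
        rw [toR_add', toR_nsmul', toR_single', smul_add, smul_smul, sub_smul,
          Finsupp.smul_single, Finsupp.smul_single, smul_eq_mul, smul_eq_mul, mul_one]
        rw [show t * |E v| * (s : ℝ) = t * E v by rw [← hs]; ring_nf; rw [hs]]
        abel
      rw [h4]
      refine cone_add (cone_single (hGv _ hA) (by positivity)) (hHc _ ?_)
      have h5 : t * (|E v| * m') ≤ 1 / (E.support.card * (|E v| * m') * 2) * (|E v| * m') :=
        mul_le_mul_of_nonneg_right ht' (by positivity)
      have h6 : 1 / (E.support.card * (|E v| * m') * 2) * (|E v| * m') =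
          1 / (E.support.card : ℝ) / 2 := by
        field_simp
      rw [h6] at h5
      have h7 : 0 < 1 / (E.support.card : ℝ) := by positivity
      nlinarith
    choose t₀ ht₀ hcone using hv
    obtain ⟨t, ht, htle⟩ : ∃ t : ℝ, 0 < t ∧ ∀ v ∈ E.support, t ≤ t₀ v := by
      refine ⟨E.support.inf' hsupp t₀, ?_, fun v hv => Finset.inf'_le _ hv⟩
      rw [Finset.lt_inf'_iff]
      exact fun v _ => ht₀ v
    refine ⟨t, ht, ?_⟩
    have h8 : toR H + t • E = ∑ v ∈ E.support,
        ((1 / (E.support.card : ℝ)) • toR H + (t * E v) • Finsupp.single v (1 : ℝ)) := by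
      rw [Finset.sum_add_distrib, Finset.sum_const, ← Nat.cast_smul_eq_nsmul ℝ, smul_smul]
      have hcard : (E.support.card : ℝ) ≠ 0 := by
        exact_mod_cast (Finset.card_pos.2 hsupp).ne'
      rw [mul_one_div_cancel hcard, one_smul]
      congr 1
      conv_lhs => rw [← Finsupp.sum_single E, Finsupp.sum, Finset.smul_sum]
      refine Finset.sum_congr rfl fun v _ => ?_
      rw [Finsupp.smul_single, Finsupp.smul_single, smul_eq_mul, smul_eq_mul, mul_one]
    rw [h8]
    refine cone_sum hsupp fun v hv => ?_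
    rcases hcone v t ht (htle v hv) with h | h
    · exact h
    · exact absurd h (Finsupp.mem_support_iff.1 hv)

end

end H16SC
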