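import Pool.Agent.H15.SC.TargetsY
import Pool.Agent.H15.SC.Ms

/-!
Module SR of block B5 of MP_f2954d_ag: the relevant valuations of the generic threefold do not depend
on the very ample divisors used.
-/

namespace H16SC

open SC SCB

theorem sr (hC1 : T_C1) (hC1g : T_C1g) (hC2 : T_C2) (hC4a : T_C4a) (hXR4 : T_XR4) (hXS : T_XS)
    (hPX : T_PX) (hXQ : T_XQ) (hPOS : T_POS) (hXI : T_XI) (hXR1 : T_XR1) : T_SR := by
  intro K _ _ N n w i₀ H₀ hw hH L J _ _ _ _ _ S D U hcard hnice hgen hind A₁ A₂ A₃ A₄ T₁ T₂ T₃ T₄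
    h₁ h₂ h₃ h₄ u hne
  classical
  obtain ⟨-, -, -, -, -, q6⟩ := hXQ K N n w hw i₀ H₀ hH
  have hess := hXI K N n w hw
  have hSnz : ∀ j, (S j).Nz := fun j => (q6 _ _ (hnice j)).2
  have hTnz : ∀ (T T' : Sys K), T.Nz → T'.Nz → ∀ j, ((![T, T'] : Fin 2 → Sys K) j).Nz := by
    intro T T' h h' j
    fin_cases j
    · exact h
    · exact h'
  have n₁ := (q6 _ _ h₁).2
  have n₂ := (q6 _ _ h₂).2
  have n₃ := (q6 _ _ h₃).2
  have n₄ := (q6 _ _ h₄).2
  have hfun : ∀ T T' : Sys K, (fun j : Fin 2 => u.res ((![T, T'] j).up L)) =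
      ![u.res (T.up L), u.res (T'.up L)] := by
    intro T T'
    funext j
    fin_cases j <;> rfl
  have htr : Algebra.trdeg ℂ K = (Fintype.card J + Fintype.card (Fin 2) + 1 : ℕ) := by
    rw [hw.dim, Fintype.card_fin, ← hcard]
  rw [← hfun] at hne ⊢
  by_cases hcase : ∃ x : K, u.ord (algebraMap K L x) ≠ 0
  · obtain ⟨v, hG, hI⟩ := hC1 ℂ K L J (Fin 2) S ![T₁, T₂] U u hSnz (hTnz _ _ n₁ n₂) hgen hind htr
      hne hcase
    have hv : IsPrimeDivisor w v := by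
      by_contra hv
      apply hne
      rw [hI]
      refine hXS K N n w hw (J ⊕ Fin 2) (Sum.elim S ![T₁, T₂]) ?_ ?_ v hv
      · rw [Fintype.card_sum, Fintype.card_fin]; omega
      · rintro (j | j)
        · exact ⟨D j, (q6 _ _ (hnice j)).1⟩
        · fin_cases j
          · exact ⟨A₁, (q6 _ _ h₁).1⟩
          · exact ⟨A₂, (q6 _ _ h₂).1⟩
    rw [hC1g ℂ K L J (Fin 2) S ![T₃, T₄] U v u hSnz (hTnz _ _ n₃ n₄) hgen hind hG]
    refine (hPX K N n w i₀ H₀ hw hH (J ⊕ Fin 2) (Sum.elim D ![A₃, A₄]) (Sum.elim S ![T₃, T₄])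
      ?_).2 ?_ ⟨v, hv⟩
    · rintro (j | j)
      · exact hnice j
      · fin_cases j
        · exact h₃
        · exact h₄
    · rw [Fintype.card_sum, Fintype.card_fin]; omega
  · push Not at hcase
    choose i0 hi0 using hSnz
    obtain ⟨p, hp, hp1, hp2⟩ := hC2 ℂ K L J (Fin 2) S ![T₁, T₂] U u i0 (hTnz _ _ n₁ n₂) hgen hi0
      hind htr hne hcase
    obtain ⟨e1, e2, e3⟩ := hC4a ℂ K L J (Fin 2) S ![T₁, T₂] U u i0 (hTnz _ _ n₁ n₂) hgen hi0 hind
      hne hcase p hp hp1 hp2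
    have hg : ∀ T : Sys K, T.Nz → Generates ℂ T → Generates (kU ℂ U) (u.res (T.up L)) :=
      fun T hT hgT => hXR4 ℂ K L J S U T u hcase hT e3 hgT
    refine hPOS (kU ℂ U) u.Res (Fin 2) _ ?_ ?_ ?_
    · intro j
      exact u.res_nz (Sys.up_nz L (hTnz _ _ n₃ n₄ j))
    · exact e2
    · intro j
      fin_cases j
      · exact hg T₃ n₃ (hXR1 K N n w hw i₀ H₀ _ _ hH h₃)
      · exact hg T₄ n₄ (hXR1 K N n w hw i₀ H₀ _ _ hH h₄)

end H16SC
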