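import Pool.Agent.H15.SC.TargetsY
import Pool.Agent.H15.SC.Ms

/-!
Module SX of block B5 of MP_f2954d_ag: decomposition of a big class of a generic threefold, integral
version.
-/

namespace H16SC

open SC SCB

section

variable {M : Type} [AddCommGroup M] [Module ℝ M]

lemma symBil_sum {κ : Type} (T : Finset κ) (c : κ → ℝ) (q : κ → M → M → ℝ)
    (h : ∀ i ∈ T, SymBil (q i)) : SymBil (fun x y => ∑ i ∈ T, c i * q i x y) where
  symm x y := Finset.sum_congr rfl fun i hi => by rw [(h i hi).symm]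
  add a b y := by
    rw [← Finset.sum_add_distrib]
    exact Finset.sum_congr rfl fun i hi => by rw [(h i hi).add]; ring
  smul t a y := by
    rw [Finset.mul_sum]
    exact Finset.sum_congr rfl fun i hi => by rw [(h i hi).smul]; ring

lemma symBil_ext {q q' : M → M → ℝ} (h : SymBil q) (h' : SymBil q') {V : Set M}
    (hV : ∀ x : M, x ∈ Submodule.span ℝ V) (he : ∀ a ∈ V, ∀ b ∈ V, q a b = q' a b) (x y : M) :
    q x y = q' x y := by
  have h1 : ∀ a ∈ V, ∀ y, q a y = q' a y := by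
    intro a ha y
    induction hV y using Submodule.span_induction with
    | mem b hb => exact he a ha b hb
    | zero => rw [h.zero', h'.zero']
    | add u v _ _ hu hv => rw [h.add', h'.add', hu, hv]
    | smul c u _ hu => rw [h.smul', h'.smul', hu]
  induction hV x using Submodule.span_induction with
  | mem b hb => exact h1 b hb y
  | zero => rw [h.zero, h'.zero]
  | add u v _ _ hu hv => rw [h.add, h'.add, hu, hv]
  | smul c u _ hu => rw [h.smul, h'.smul, hu]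

lemma om_symBil {n : ℕ} (I : Multiset M → ℝ)
    (hadd : ∀ (a b : M) (s : Multiset M), s.card + 1 = n →
      I ((a + b) ::ₘ s) = I (a ::ₘ s) + I (b ::ₘ s))
    (hsmul : ∀ (c : ℝ) (a : M) (s : Multiset M), s.card + 1 = n →
      I ((c • a) ::ₘ s) = c * I (a ::ₘ s)) (d : M) {t : Multiset M} (ht : t.card + 3 = n) :
    SymBil (fun x y => I (d ::ₘ x ::ₘ y ::ₘ t)) where
  symm x y := by
    show I _ = I _
    rw [Multiset.cons_swap x y]
  add a b y := by
    show I _ = I _ + I _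
    rw [Multiset.cons_swap d, hadd _ _ _ (by simp only [Multiset.card_cons]; omega),
      Multiset.cons_swap a, Multiset.cons_swap b]
  smul c a y := by
    show I _ = c * I _
    rw [Multiset.cons_swap d, hsmul _ _ _ (by simp only [Multiset.card_cons]; omega),
      Multiset.cons_swap a]

end

theorem sx (hGL : T_GL) (hSG : T_SG) (hSD : T_SD) (hSE : T_SE) (hSR : T_SR) (hMX : T_MX)
    (hSPN : T_SPN) (hXQ : T_XQ) (hXI : T_XI) (hXR1 : T_XR1) (hG1a : T_G1a) : T_SX := by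
  intro K _ _ N n w i₀ H₀ μ hw hH hμ J _ D hcard hD G B hG hB hlt
  classical
  obtain ⟨-, -, -, q4, -, q6⟩ := hXQ K N n w hw i₀ H₀ hH
  have hess := hXI K N n w hw
  have hn1 : 1 ≤ n := by omega
  choose T hT using fun j => (q4 (D j)).1 (hD j)
  obtain ⟨TG, hTG⟩ := (q4 G).1 hG
  obtain ⟨TB, hTB⟩ := (q4 B).1 hB
  have hTnz : ∀ j, (T j).Nz := fun j => (q6 _ _ (hT j)).2
  obtain ⟨-, hadd, hsmul⟩ := hGL (DivR w) n μ hμ.1
  have hgen : IsGen T (genU T) := hG1a K J T hTnz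
  have htr : Algebra.trdeg ℂ K = (Fintype.card J + 3 : ℕ) := by
    rw [hw.dim, ← hcard]
  -- intersection numbers of four kinds
  have hmx : ∀ (A A' A'' : DivZ w) (S S' S'' : Sys K), Nice i₀ H₀ A S → Nice i₀ H₀ A' S' →
      Nice i₀ H₀ A'' S'' → ofMulti μ (toR A ::ₘ toR A' ::ₘ toR A'' ::ₘ ms fun j => toR (D j)) =
        (Idx (Sum.elim T ![S, S', S'']) ℂ : ℝ) := by
    intro A A' A'' S S' S'' h h' h''
    rw [← hMX K N n w i₀ H₀ μ hw hn1 hH hμ (J ⊕ Fin 3) (Sum.elim D ![A, A', A''])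
      (Sum.elim T ![S, S', S'']) (by rw [Fintype.card_sum, Fintype.card_fin]; omega) (by
        rintro (j | j)
        · exact hT j
        · fin_cases j
          · exact h
          · exact h'
          · exact h'')]
    congr 1
    refine (ms_elim3 (fun j => toR (D j)) ![toR A, toR A', toR A''] _ (fun j => rfl) ?_).symm
    intro i
    fin_cases i <;> rfl
  rw [hmx G G B TG TG TB hTG hTG hTB, hmx G G G TG TG TG hTG hTG hTG] at hlt
  obtain ⟨hind, m, hm, g, hg, hg0⟩ := hSG K (Gen T) J T (genU T) TG TB hTnz (q6 _ _ hTG).2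
    (q6 _ _ hTB).2 (hXR1 K N n w hw i₀ H₀ _ _ hH hTG) (hXR1 K N n w hw i₀ H₀ _ _ hH hTB) hgen htr
    (by exact_mod_cast hlt)
  obtain ⟨R, hR, c, hc⟩ := hSD K (Gen T) J T (genU T) TG TB TG hTnz (q6 _ _ hTG).2
    (q6 _ _ hTB).2 (q6 _ _ hTG).2 hgen hind htr m g hm hg hg0
  have hse : ∀ u : {u // u ∈ R}, ∃ δ : DivR w,
      (∀ (A A' : DivZ w) (S S' : Sys K), Nice i₀ H₀ A S → Nice i₀ H₀ A' S' →
      ofMulti μ (δ ::ₘ toR A ::ₘ toR A' ::ₘ ms fun j => toR (D j)) =
        (Idx ![u.1.res (S.up (Gen T)), u.1.res (S'.up (Gen T))] (kU ℂ (genU T)) : ℝ)) ∧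
      ((∃ v : PDiv w, δ = Finsupp.single v 1) ∨ TPI H₀ μ D δ) := fun u =>
    hSE K N n w i₀ H₀ μ hw hH hμ (Gen T) J T D (genU T) hcard hT hgen hind G TG hTG u.1
      (hR u.1 u.2)
  choose δ hδ1 hδ2 using hse
  let e : Fin R.card ≃ {u // u ∈ R} := R.equivFin.symm
  refine ⟨R.card, fun i => (c (e i).1 : ℝ) / m, fun i => δ (e i), fun i => by positivity, ?_,
    fun i => hδ2 (e i)⟩
  have hmpos : (0 : ℝ) < m := by exact_mod_cast hm
  have hct : (ms fun j => toR (D j)).card + 3 = n := by rw [card_ms]; exact hcard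
  intro x y
  refine symBil_ext (om_symBil (ofMulti μ) hadd hsmul (toR G - toR B) hct)
    (symBil_sum Finset.univ (fun i => (c (e i).1 : ℝ) / m)
      (fun i x y => ofMulti μ (δ (e i) ::ₘ x ::ₘ y ::ₘ ms fun j => toR (D j)))
      (fun i _ => om_symBil (ofMulti μ) hadd hsmul _ hct))
    (hSPN K N n w i₀ H₀ hw hH).2.1 ?_ x y
  rintro _ ⟨A, hA, rfl⟩ _ ⟨A', hA', rfl⟩
  obtain ⟨TA, hTA⟩ := (q4 A).1 hA
  obtain ⟨TA', hTA'⟩ := (q4 A').1 hA'
  have h1 := hc TA TA' (q6 _ _ hTA).2 (q6 _ _ hTA').2 (by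
    intro u hu
    have h2 := hSR K N n w i₀ H₀ hw hH (Gen T) J T D (genU T) hcard hT hgen hind A A' G G TA TA'
      TG TG hTA hTA' hTG hTG u hu
    unfold SC.Rel
    convert h2 using 3 with j
    fin_cases j <;> rfl)
  have hsub : ofMulti μ ((toR G - toR B) ::ₘ toR A ::ₘ toR A' ::ₘ ms fun j => toR (D j)) =
      ofMulti μ (toR G ::ₘ toR A ::ₘ toR A' ::ₘ ms fun j => toR (D j)) -
      ofMulti μ (toR B ::ₘ toR A ::ₘ toR A' ::ₘ ms fun j => toR (D j)) := by
    have hcd : (toR A ::ₘ toR A' ::ₘ ms fun j => toR (D j)).card + 1 = n := by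
      simp only [Multiset.card_cons]; omega
    have hs := hsmul (-1) (toR B) _ hcd
    rw [sub_eq_add_neg, hadd _ _ _ hcd]
    rw [neg_one_smul] at hs
    rw [hs]; ring
  show ofMulti μ ((toR G - toR B) ::ₘ toR A ::ₘ toR A' ::ₘ ms fun j => toR (D j)) =
    ∑ i, (c (e i).1 : ℝ) / m * ofMulti μ (δ (e i) ::ₘ toR A ::ₘ toR A' ::ₘ ms fun j => toR (D j))
  rw [hsub, hmx G A A' TG TA TA' hTG hTA hTA', hmx B A A' TB TA TA' hTB hTA hTA']
  have h3 : ∑ i, (c (e i).1 : ℝ) / m *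
      ofMulti μ (δ (e i) ::ₘ toR A ::ₘ toR A' ::ₘ ms fun j => toR (D j)) =
      (∑ u ∈ R, (c u : ℝ) *
        (Idx ![u.res (TA.up (Gen T)), u.res (TA'.up (Gen T))] (kU ℂ (genU T)) : ℝ)) / m := by
    rw [Finset.sum_div, ← Finset.sum_coe_sort R]
    refine Fintype.sum_equiv e _ _ fun i => ?_
    rw [hδ1 (e i) A A' TA TA' hTA hTA']
    ring
  rw [h3, eq_div_iff hmpos.ne', mul_comm]
  have h4 := congrArg (fun z : ℤ => (z : ℝ)) h1

  push_cast at h4
  exact h4

end H16SC
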