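import Pool.Agent.H16.SC.Targets

/-!
Module KT of block B1 of MP_f2954d_ag: the abstract kernel theorem for finite dimensional real
vector spaces from the version for normed spaces.
-/

namespace Pool.Agent.H16.SC

open SCB Filter Topology

lemma cone_subset {N P : Type} [NormedAddCommGroup N] [NormedSpace ℝ N] {n : ℕ} (X : Geo N P n)
    (hadd : ∀ a ∈ X.Nef, ∀ b ∈ X.Nef, a + b ∈ X.Nef)
    (hsmul : ∀ a ∈ X.Nef, ∀ c : ℝ, 0 ≤ c → c • a ∈ X.Nef) : Cone X.G ⊆ X.Nef := by
  rintro x ⟨r, g, c, h, rfl⟩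
  have key : ∀ T : Finset (Fin (r + 1)), T.Nonempty → ∑ i ∈ T, c i • g i ∈ X.Nef := by
    intro T hT
    induction hT using Finset.Nonempty.cons_induction with
    | singleton a =>
      rw [Finset.sum_singleton]
      exact hsmul _ (subset_closure (h a).1) _ (h a).2.le
    | cons a s ha hs ih =>
      rw [Finset.sum_cons]
      exact hadd _ (hsmul _ (subset_closure (h a).1) _ (h a).2.le) _ ih
  exact key _ Finset.univ_nonempty

lemma nef_of_nefA {N P : Type} [NormedAddCommGroup N] [NormedSpace ℝ N] {n : ℕ} (X : Geo N P n)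
    (hadd : ∀ a ∈ X.Nef, ∀ b ∈ X.Nef, a + b ∈ X.Nef)
    (hsmul : ∀ a ∈ X.Nef, ∀ c : ℝ, 0 ≤ c → c • a ∈ X.Nef) {x : N} (hx : X.NefA x) :
    x ∈ X.Nef := by
  obtain ⟨g, hg⟩ := X.G_nonempty
  have h1 : ∀ k : ℕ, x + (1 / ((k : ℝ) + 1)) • g ∈ X.Nef := by
    intro k
    exact cone_subset X hadd hsmul (hx g hg _ (by positivity))
  have h2 : Tendsto (fun k : ℕ => x + (1 / ((k : ℝ) + 1)) • g) atTop (𝓝 (x + (0 : ℝ) • g)) :=
    tendsto_const_nhds.add (tendsto_one_div_add_atTop_nhds_zero_nat.smul_const g)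
  rw [zero_smul, add_zero] at h2
  have h3 : IsClosed X.Nef := isClosed_closure
  exact h3.mem_of_tendsto h2 (Eventually.of_forall h1)

theorem kt_normed (h1 : T_CN) (h2 : T_NZ) (h3 : T_MN) {N P ι : Type} [NormedAddCommGroup N]
    [NormedSpace ℝ N] [FiniteDimensional ℝ N] [Fintype ι] (n : ℕ) (X : Geo N P n)
    (hcard : Fintype.card ι + 2 = n) (L : ι → N) (hnef : ∀ i, X.NefA (L i))
    (hsup : ∀ J : Finset ι, J.Nonempty → ∃ s : Multiset N, J.card + 2 + s.card = n ∧
      X.I (Multiset.replicate (J.card + 2) (∑ i ∈ J, L i) + s) ≠ 0) : X.Thm L := by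
  classical
  obtain ⟨hadd, hsmul, -⟩ := h1 N P n X
  obtain ⟨A, hA⟩ := X.G_nonempty
  have hL : ∀ i, L i ∈ X.Nef := fun i => nef_of_nefA X hadd hsmul (hnef i)
  have h0 : (0 : N) ∈ X.Nef := by
    have := hsmul A (subset_closure hA) 0 le_rfl
    simpa using this
  have hsum : ∀ J : Finset ι, ∑ i ∈ J, L i ∈ X.Nef := by
    intro J
    induction J using Finset.induction_on with
    | empty => simpa using h0
    | insert a s ha ih => rw [Finset.sum_insert ha]; exact hadd _ (hL a) _ ih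
  refine h3 N P ι n X A hA hcard L ⟨hL, ?_⟩
  intro J hJ
  by_contra hne
  obtain ⟨s, hs, hs'⟩ := hsup J hJ
  refine hs' ((h2 N P n X A hA).2.1 _ ?_ ?_ hne s ?_)
  · intro a ha
    rw [Multiset.eq_of_mem_replicate ha]
    exact hsum J
  · rw [Multiset.card_replicate]; omega
  · rw [Multiset.card_replicate]; exact hs

theorem kkt (h1 : T_CN) (h2 : T_NZ) (h3 : T_MN) : T_KT := by
  intro N P ι i1 i2 i3 i4 n X hcard L hnef hsup
  classical
  let e : N ≃ₗ[ℝ] (Fin (Module.finrank ℝ N) → ℝ) := (Module.finBasis ℝ N).equivFun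
  letI j1 : NormedAddCommGroup N := NormedAddCommGroup.induced N
    (Fin (Module.finrank ℝ N) → ℝ) e.toLinearMap e.injective
  letI j2 : NormedSpace ℝ N := NormedSpace.induced ℝ N (Fin (Module.finrank ℝ N) → ℝ) e.toLinearMap
  exact kt_normed h1 h2 h3 n X hcard L hnef hsup

end Pool.Agent.H16.SC
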